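import Pool.Agent.TH280.LS.Base
set_option autoImplicit false

/-! # Local smoothing for piecewise monotone data: definitions and statements of the steps -/

open MeasureTheory Set
open scoped ENNReal

namespace Pool.Agent.TH280.LS

/-! ### E4: a weighted inequality for the Fourier transform -/

/-- `∫ |Ĥ|^4 ≤ C^m ∫ ∏ |η_i|^2 |H|^4` -/
def S_E4 : Prop := ∃ C : ℝ, 0 < C ∧ ∀ (m : ℕ) (H : (Fin m → ℝ) → ℂ), Integrable H →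
  ∫⁻ y : Fin m → ℝ, ‖∫ η : Fin m → ℝ, e (∑ i, y i * η i) * H η‖ₑ ^ 4 ≤
    ENNReal.ofReal (C ^ m) * ∫⁻ η : Fin m → ℝ, ENNReal.ofReal ((∏ i, |η i|) ^ 2) * ‖H η‖ₑ ^ 4

/-! ### F: piecewise monotone functions -/

/-- the line is the union of `k` disjoint intervals on each of which `F` is monotone -/
def PM (k : ℕ) (F : ℝ → ℝ) : Prop :=
  ∃ I : Fin k → Set ℝ, (∀ i, (I i).OrdConnected) ∧ Pairwise (Function.onFun Disjoint I) ∧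
    (⋃ i, I i) = Set.univ ∧ ∀ i, MonotoneOn F (I i) ∨ AntitoneOn F (I i)

/-- `∫ |ξ|^{p-2} |F̂|^p ≤ C ∫ |F|^p` for piecewise monotone functions -/
def S_F : Prop := ∀ (k : ℕ) (p : ℝ), 2 ≤ p → ∃ C : ℝ, 0 < C ∧ ∀ F : ℝ → ℝ, PM k F →
  Integrable F →
  ∫⁻ ξ : ℝ, ENNReal.ofReal (|ξ| ^ (p - 2)) * ‖ft (fun x => (F x : ℂ)) ξ‖ₑ ^ p ≤
    ENNReal.ofReal C * ∫⁻ x : ℝ, ‖F x‖ₑ ^ p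

/-! ### MOD: a modulus of continuity -/

/-- `Φ(s) = ∫_{-2}^{2} φ(t) e(ts) dt` -/
noncomputable def Ph (φ : ℝ → ℂ) (s : ℝ) : ℂ := ∫ t in Icc (-2 : ℝ) 2, φ t * e (t * s)

/-- even convex functions with derivative bounded by `2` -/
def Ev (g g' : ℝ → ℝ) : Prop := (∀ ξ, HasDerivAt g (g' ξ) ξ) ∧ Monotone g' ∧
  (∀ ξ, |g' ξ| ≤ 2) ∧ ∀ ξ, g (-ξ) = g ξ

/-- cutoffs at scale `N` -/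
def Cut (L N : ℝ) (χ : ℝ → ℂ) : Prop := (∀ ξ, ‖χ ξ‖ ≤ 1) ∧
  (∀ ξ ξ', ‖χ ξ - χ ξ'‖ ≤ L / N * |ξ - ξ'|) ∧ ∀ ξ, 2 * N < |ξ| → χ ξ = 0

def S_MOD : Prop := ∃ C : ℝ, 0 < C ∧ ∀ (N : ℝ) (g g' : ℝ → ℝ) (χ φ : ℝ → ℂ), 1 ≤ N → Ev g g' →
  Cut 2 N χ → Measurable φ → MemLp φ 2 (volume.restrict (Icc (-2 : ℝ) 2)) →
  (∀ τ : ℝ, 0 < τ → ∫⁻ ξ : ℝ, ‖χ (ξ + τ) * Ph φ (g (ξ + τ)) - χ ξ * Ph φ (g ξ)‖ₑ ^ 2 ≤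
    ENNReal.ofReal (C * τ) * ∫⁻ t in Icc (-2 : ℝ) 2, ‖φ t‖ₑ ^ 2) ∧
  (∀ τ : ℝ, 0 < τ → τ ≤ 1 → ∫⁻ ξ : ℝ, ‖χ (ξ + τ) * Ph φ (g (ξ + τ)) - χ ξ * Ph φ (g ξ)‖ₑ ^ 2 ≤
    ENNReal.ofReal (C * τ ^ 2) * ∫⁻ t in Icc (-2 : ℝ) 2, ‖φ t‖ₑ ^ 2)

/-! ### W: from the modulus of continuity to a weighted bound of the Fourier transform -/

/-- the weight -/
noncomputable def Wt (N v : ℝ) : ℝ := if |v| ≤ 1 then 1 / N + |v| else |v| ^ (3 / 2 : ℝ)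

def S_W : Prop := ∃ C : ℝ, 0 < C ∧ ∀ (N : ℝ), 1 ≤ N →
  (∫⁻ v : ℝ, (ENNReal.ofReal (Wt N v))⁻¹ ≤ ENNReal.ofReal (C * (1 + Real.log N))) ∧
  ∀ (F : ℝ → ℂ) (A : ℝ≥0∞), Measurable F → Integrable F → MemLp F 2 →
  ∫⁻ ξ : ℝ, ‖F ξ‖ₑ ^ 2 ≤ ENNReal.ofReal N * A →
  (∀ τ : ℝ, 0 < τ → ∫⁻ ξ : ℝ, ‖F (ξ + τ) - F ξ‖ₑ ^ 2 ≤ ENNReal.ofReal τ * A) →
  (∀ τ : ℝ, 0 < τ → τ ≤ 1 → ∫⁻ ξ : ℝ, ‖F (ξ + τ) - F ξ‖ₑ ^ 2 ≤ ENNReal.ofReal (τ ^ 2) * A) →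
  ∫⁻ v : ℝ, ENNReal.ofReal (Wt N v) * ‖ft F v‖ₑ ^ 2 ≤ ENNReal.ofReal (C * (1 + Real.log N)) * A

/-! ### DUAL: one dimensional estimate in time -/

def S_DUAL : Prop := ∃ C : ℝ, 0 < C ∧ ∀ (N : ℝ) (g g' : ℝ → ℝ) (χ b : ℝ → ℂ), 1 ≤ N → Ev g g' →
  Cut 2 N χ → Integrable b →
  ∫⁻ t in Icc (-2 : ℝ) 2, ‖∫ ξ : ℝ, e (t * g ξ) * (χ ξ * ft b ξ)‖ₑ ^ 2 ≤
    ENNReal.ofReal (C * (1 + Real.log N)) *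
      ∫⁻ v : ℝ, (ENNReal.ofReal (Wt N v))⁻¹ * ‖b v‖ₑ ^ 2

/-! ### LS4: the frequency localised estimate -/

/-- `√(ξ²+a²)` -/
noncomputable def ra (a ξ : ℝ) : ℝ := Real.sqrt (ξ ^ 2 + a ^ 2)

/-- propagator on the line with symbol `e(t √(ξ²+a²)) χ(ξ)` -/
noncomputable def Vx (a : ℝ) (χ G : ℝ → ℂ) (t x : ℝ) : ℂ :=
  ∫ ξ : ℝ, e (x * ξ) * (e (t * ra a ξ) * (χ ξ * ft G ξ))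

def S_LS4 : Prop := ∃ C : ℝ, 0 < C ∧ ∀ (N a : ℝ) (χ G : ℝ → ℂ), 1 ≤ N → 0 < a → Cut 1 N χ →
  Integrable G →
  ∫⁻ t in Icc (-2 : ℝ) 2, ∫⁻ x : ℝ, ‖Vx a χ G t x‖ₑ ^ 4 ≤
    ENNReal.ofReal (C * (1 + Real.log N) ^ 2) * ∫⁻ x : ℝ, ‖G x‖ₑ ^ 4

/-! ### SUM: symbols of negative order -/

/-- Lipschitz symbols of order `-s` -/
def Sy (s : ℝ) (w : ℝ → ℂ) : Prop := (∀ r, 0 ≤ r → ‖w r‖ ≤ (1 + r) ^ (-s)) ∧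
  ∀ r r', 0 ≤ r → r ≤ r' → ‖w r - w r'‖ ≤ (1 + r) ^ (-s - 1) * (r' - r)

def S_SUM : Prop := ∀ s : ℝ, 0 < s → ∃ C : ℝ, 0 < C ∧ ∀ (a : ℝ) (w G : ℝ → ℂ), 0 < a → Sy s w →
  Integrable (fun ξ => w (ra a ξ)) → Integrable G →
  ∫⁻ t in Icc (-2 : ℝ) 2, ∫⁻ x : ℝ, ‖Vx a (fun ξ => w (ra a ξ)) G t x‖ₑ ^ 4 ≤
    ENNReal.ofReal C * ∫⁻ x : ℝ, ‖G x‖ₑ ^ 4

/-! ### ONE: the two propagators of the wave equation -/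

/-- cosine symbol -/
noncomputable def mc (s τ t r : ℝ) : ℝ :=
  Real.exp (-(τ * r ^ 2)) * (Real.cos (2 * Real.pi * (t * r)) *
    (1 + 4 * Real.pi ^ 2 * r ^ 2) ^ (-(s / 2)))

/-- sine symbol -/
noncomputable def ms (s τ t r : ℝ) : ℝ :=
  Real.exp (-(τ * r ^ 2)) * (Real.sin (2 * Real.pi * (t * r)) / (2 * Real.pi * r) *
    (1 + 4 * Real.pi ^ 2 * r ^ 2) ^ ((1 - s) / 2))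

/-- multiplier operator on the line -/
noncomputable def Ux (a : ℝ) (M : ℝ → ℝ) (G : ℝ → ℂ) (x : ℝ) : ℂ :=
  ∫ ξ : ℝ, e (x * ξ) * (((M (ra a ξ) : ℝ) : ℂ) * ft G ξ)

def S_ONE : Prop := ∀ s : ℝ, 0 < s → ∃ C : ℝ, 0 < C ∧ ∀ (a τ : ℝ) (G : ℝ → ℂ), 0 < a → 0 < τ →
  τ ≤ 1 → Integrable G →
  (∫⁻ t in Icc (1 : ℝ) 2, ∫⁻ x : ℝ, ‖Ux a (mc s τ t) G x‖ₑ ^ 4 ≤
    ENNReal.ofReal C * ∫⁻ x : ℝ, ‖G x‖ₑ ^ 4) ∧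
  (∫⁻ t in Icc (1 : ℝ) 2, ∫⁻ x : ℝ, ‖Ux a (ms s τ t) G x‖ₑ ^ 4 ≤
    ENNReal.ofReal C * ∫⁻ x : ℝ, ‖G x‖ₑ ^ 4)

/-! ### TP: several variables -/

/-- multiplier operator with radial multiplier `M(|(η,ξ)|)`, applied to a function whose partial
Fourier transform in the first `m` variables is `G` -/
noncomputable def Tm (m : ℕ) (M : ℝ → ℝ) (G : (Fin m → ℝ) → ℝ → ℂ) (y : Fin m → ℝ) (x : ℝ) : ℂ :=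
  ∫ η : Fin m → ℝ, e (∑ i, y i * η i) * Ux (Real.sqrt (∑ i, η i ^ 2)) M (G η) x

/-- admissible partial Fourier transforms -/
def Adm (m : ℕ) (G : (Fin m → ℝ) → ℝ → ℂ) : Prop :=
  Measurable (Function.uncurry G) ∧ ∃ g : ℝ → ℝ, Integrable g ∧ ∀ η x, ‖G η x‖ ≤ g x

def S_T2 : Prop := ∀ (m : ℕ) (s : ℝ), 0 < s → ∃ C : ℝ, 0 < C ∧ ∀ (τ : ℝ)
  (G : (Fin m → ℝ) → ℝ → ℂ), 0 < τ → Adm m G →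
  (∫⁻ t in Icc (1 : ℝ) 2, ∫⁻ x : ℝ, ∫⁻ y : Fin m → ℝ, ‖Tm m (mc s τ t) G y x‖ₑ ^ 2 ≤
    ENNReal.ofReal C * ∫⁻ x : ℝ, ∫⁻ η : Fin m → ℝ, ‖G η x‖ₑ ^ 2) ∧
  (∫⁻ t in Icc (1 : ℝ) 2, ∫⁻ x : ℝ, ∫⁻ y : Fin m → ℝ, ‖Tm m (ms s τ t) G y x‖ₑ ^ 2 ≤
    ENNReal.ofReal C * ∫⁻ x : ℝ, ∫⁻ η : Fin m → ℝ, ‖G η x‖ₑ ^ 2)

def S_T4 : Prop := ∀ (m : ℕ) (s : ℝ), 0 < m → 0 < s → ∃ C : ℝ, 0 < C ∧ ∀ (τ : ℝ)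
  (G : (Fin m → ℝ) → ℝ → ℂ), 0 < τ → τ ≤ 1 → Adm m G →
  (∫⁻ t in Icc (1 : ℝ) 2, ∫⁻ x : ℝ, ∫⁻ y : Fin m → ℝ, ‖Tm m (mc s τ t) G y x‖ₑ ^ 4 ≤
    ENNReal.ofReal C * ∫⁻ x : ℝ, ∫⁻ η : Fin m → ℝ,
      ENNReal.ofReal ((∏ i, |η i|) ^ 2) * ‖G η x‖ₑ ^ 4) ∧
  (∫⁻ t in Icc (1 : ℝ) 2, ∫⁻ x : ℝ, ∫⁻ y : Fin m → ℝ, ‖Tm m (ms s τ t) G y x‖ₑ ^ 4 ≤
    ENNReal.ofReal C * ∫⁻ x : ℝ, ∫⁻ η : Fin m → ℝ,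
      ENNReal.ofReal ((∏ i, |η i|) ^ 2) * ‖G η x‖ₑ ^ 4)

def S_TP : Prop := ∀ (m : ℕ) (s p : ℝ), 0 < m → 0 < s → 2 ≤ p → p ≤ 4 → ∃ C : ℝ, 0 < C ∧
  ∀ (τ : ℝ) (G : (Fin m → ℝ) → ℝ → ℂ), 0 < τ → τ ≤ 1 → Adm m G →
  (∫⁻ t in Icc (1 : ℝ) 2, ∫⁻ x : ℝ, ∫⁻ y : Fin m → ℝ, ‖Tm m (mc s τ t) G y x‖ₑ ^ p ≤
    ENNReal.ofReal C * ∫⁻ x : ℝ, ∫⁻ η : Fin m → ℝ,
      ENNReal.ofReal ((∏ i, |η i|) ^ (p - 2)) * ‖G η x‖ₑ ^ p) ∧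
  (∫⁻ t in Icc (1 : ℝ) 2, ∫⁻ x : ℝ, ∫⁻ y : Fin m → ℝ, ‖Tm m (ms s τ t) G y x‖ₑ ^ p ≤
    ENNReal.ofReal C * ∫⁻ x : ℝ, ∫⁻ η : Fin m → ℝ,
      ENNReal.ofReal ((∏ i, |η i|) ^ (p - 2)) * ‖G η x‖ₑ ^ p)

/-! ### CL: the class of data -/

/-- partial Fourier transform of a function of `m` variables -/
noncomputable def ftm (m : ℕ) (f : (Fin m → ℝ) → ℂ) (η : Fin m → ℝ) : ℂ :=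
  ∫ y : Fin m → ℝ, e (-(∑ i, y i * η i)) * f y

def S_CL : Prop := ∀ (m k : ℕ) (p : ℝ), 2 ≤ p → ∃ C : ℝ, 0 < C ∧ ∀ (b : ℂ) (F : Fin m → ℝ → ℝ),
  (∀ i, PM k (F i)) → Integrable (fun y : Fin m → ℝ => b * ∏ i, ((F i (y i) : ℝ) : ℂ)) →
  ∫⁻ η : Fin m → ℝ, ENNReal.ofReal ((∏ i, |η i|) ^ (p - 2)) *
      ‖ftm m (fun y => b * ∏ i, ((F i (y i) : ℝ) : ℂ)) η‖ₑ ^ p ≤
    ENNReal.ofReal C * ∫⁻ y : Fin m → ℝ, ‖b * ∏ i, ((F i (y i) : ℝ) : ℂ)‖ₑ ^ p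

end Pool.Agent.TH280.LS
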