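import Pool.Agent.TH280.LS.StmB
set_option autoImplicit false

/-! # Local smoothing for data with radially decreasing slices: weights in the frequency -/

open MeasureTheory Set
open scoped ENNReal

namespace Pool.Agent.TH280.LS

/-- the estimate with the gain from large masses -/
def S_SUMK : Prop := ∀ s1 s2 : ℝ, 0 < s1 → 0 ≤ s2 → ∃ C : ℝ, 0 < C ∧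
  ∀ (a : ℝ) (w G : ℝ → ℂ), 0 < a → Sy (s1 + s2) w →
  Integrable (fun ξ => w (ra a ξ)) → Integrable G →
  ∫⁻ t in Icc (-2 : ℝ) 2, ∫⁻ x : ℝ, ‖Vx a (fun ξ => w (ra a ξ)) G t x‖ₑ ^ 4 ≤
    ENNReal.ofReal (C * (1 + a) ^ (-(4 * s2))) * ∫⁻ x : ℝ, ‖G x‖ₑ ^ 4

def S_ONEK : Prop := ∀ s1 s2 : ℝ, 0 < s1 → 0 ≤ s2 → ∃ C : ℝ, 0 < C ∧
  ∀ (a τ : ℝ) (G : ℝ → ℂ), 0 < a → 0 < τ → τ ≤ 1 → Integrable G →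
  (∫⁻ t in Icc (1 : ℝ) 2, ∫⁻ x : ℝ, ‖Ux a (mc (s1 + s2) τ t) G x‖ₑ ^ 4 ≤
    ENNReal.ofReal (C * (1 + a) ^ (-(4 * s2))) * ∫⁻ x : ℝ, ‖G x‖ₑ ^ 4) ∧
  (∫⁻ t in Icc (1 : ℝ) 2, ∫⁻ x : ℝ, ‖Ux a (ms (s1 + s2) τ t) G x‖ₑ ^ 4 ≤
    ENNReal.ofReal (C * (1 + a) ^ (-(4 * s2))) * ∫⁻ x : ℝ, ‖G x‖ₑ ^ 4)

/-- the weight `(1+|η|)^(-s2)` -/
noncomputable def kp (m : ℕ) (s2 : ℝ) (η : Fin m → ℝ) : ℝ := (1 + nr η) ^ (-s2)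

/-- `p = 2`, weight `κ` -/
def T2k (m : ℕ) (κ : (Fin m → ℝ) → ℝ) (s : ℝ) : Prop := ∃ C : ℝ, 0 < C ∧ ∀ (τ : ℝ)
  (G : (Fin m → ℝ) → ℝ → ℂ), 0 < τ → τ ≤ 1 → Adm m G →
  (∫⁻ t in Icc (1 : ℝ) 2, ∫⁻ x : ℝ, ∫⁻ y : Fin m → ℝ, ‖Tm m (mc s τ t) G y x‖ₑ ^ 2 ≤
    ENNReal.ofReal C * ∫⁻ x : ℝ, ∫⁻ η : Fin m → ℝ,
      ENNReal.ofReal (κ η ^ 2) * ‖G η x‖ₑ ^ 2) ∧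
  (∫⁻ t in Icc (1 : ℝ) 2, ∫⁻ x : ℝ, ∫⁻ y : Fin m → ℝ, ‖Tm m (ms s τ t) G y x‖ₑ ^ 2 ≤
    ENNReal.ofReal C * ∫⁻ x : ℝ, ∫⁻ η : Fin m → ℝ,
      ENNReal.ofReal (κ η ^ 2) * ‖G η x‖ₑ ^ 2)

/-- `p = 4`, weights `ρ`, `κ` -/
def T4k (m : ℕ) (ρ κ : (Fin m → ℝ) → ℝ) (s : ℝ) : Prop := ∃ C : ℝ, 0 < C ∧ ∀ (τ : ℝ)
  (G : (Fin m → ℝ) → ℝ → ℂ), 0 < τ → τ ≤ 1 → Adm m G →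
  (∫⁻ t in Icc (1 : ℝ) 2, ∫⁻ x : ℝ, ∫⁻ y : Fin m → ℝ, ‖Tm m (mc s τ t) G y x‖ₑ ^ 4 ≤
    ENNReal.ofReal C * ∫⁻ x : ℝ, ∫⁻ η : Fin m → ℝ,
      ENNReal.ofReal (ρ η ^ 2 * κ η ^ 4) * ‖G η x‖ₑ ^ 4) ∧
  (∫⁻ t in Icc (1 : ℝ) 2, ∫⁻ x : ℝ, ∫⁻ y : Fin m → ℝ, ‖Tm m (ms s τ t) G y x‖ₑ ^ 4 ≤
    ENNReal.ofReal C * ∫⁻ x : ℝ, ∫⁻ η : Fin m → ℝ,
      ENNReal.ofReal (ρ η ^ 2 * κ η ^ 4) * ‖G η x‖ₑ ^ 4)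

/-- `2 ≤ p ≤ 4`, weights `ρ`, `κ` -/
def TPk (m : ℕ) (ρ κ : (Fin m → ℝ) → ℝ) (s p : ℝ) : Prop := ∃ C : ℝ, 0 < C ∧
  ∀ (τ : ℝ) (G : (Fin m → ℝ) → ℝ → ℂ), 0 < τ → τ ≤ 1 → Adm m G →
  (∫⁻ t in Icc (1 : ℝ) 2, ∫⁻ x : ℝ, ∫⁻ y : Fin m → ℝ, ‖Tm m (mc s τ t) G y x‖ₑ ^ p ≤
    ENNReal.ofReal C * ∫⁻ x : ℝ, ∫⁻ η : Fin m → ℝ,
      ENNReal.ofReal (ρ η ^ (p - 2) * κ η ^ p) * ‖G η x‖ₑ ^ p) ∧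
  (∫⁻ t in Icc (1 : ℝ) 2, ∫⁻ x : ℝ, ∫⁻ y : Fin m → ℝ, ‖Tm m (ms s τ t) G y x‖ₑ ^ p ≤
    ENNReal.ofReal C * ∫⁻ x : ℝ, ∫⁻ η : Fin m → ℝ,
      ENNReal.ofReal (ρ η ^ (p - 2) * κ η ^ p) * ‖G η x‖ₑ ^ p)

def S_T2K : Prop := ∀ (m : ℕ) (s1 s2 : ℝ), 0 < m → 0 < s1 → 0 ≤ s2 → T2k m (kp m s2) (s1 + s2)

def S_T4K : Prop := ∀ (m : ℕ) (ρ : (Fin m → ℝ) → ℝ) (s1 s2 : ℝ), 0 < m → Measurable ρ →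
  (∀ η, 0 ≤ ρ η) → E4w m ρ → 0 < s1 → 0 ≤ s2 → T4k m ρ (kp m s2) (s1 + s2)

def S_TPK : Prop := ∀ (m : ℕ) (ρ κ : (Fin m → ℝ) → ℝ) (s p : ℝ), 0 < m → Measurable ρ →
  (∀ η, 0 ≤ ρ η) → (∀ᵐ η : Fin m → ℝ, ρ η ≠ 0) → Measurable κ → (∀ η, 0 < κ η) →
  (∀ η, κ η ≤ 1) → 0 < s → 2 ≤ p → p ≤ 4 → T2k m κ s → T4k m ρ κ s → TPk m ρ κ s p

/-- radially decreasing functions of bounded radius -/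
def S_CLRK : Prop := ∀ (m : ℕ) (p s2 R0 : ℝ), 2 ≤ m → 2 ≤ p → 0 < s2 →
  ((m : ℝ) - 1) / 2 - m / p < s2 → ∃ C : ℝ, 0 < C ∧
  ∀ (b : ℂ) (c : Fin m → ℝ) (F : ℝ → ℝ), AntitoneOn F (Ici 0) → (∀ r, R0 < r → F r = 0) →
  Integrable (fun y : Fin m → ℝ => b * ((F (nr (y - c)) : ℝ) : ℂ)) →
  ∫⁻ η : Fin m → ℝ, ENNReal.ofReal ((nr η ^ m) ^ (p - 2) * kp m s2 η ^ p) *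
      ‖ftm m (fun y => b * ((F (nr (y - c)) : ℝ) : ℂ)) η‖ₑ ^ p ≤
    ENNReal.ofReal C * ∫⁻ y : Fin m → ℝ, ‖b * ((F (nr (y - c)) : ℝ) : ℂ)‖ₑ ^ p

end Pool.Agent.TH280.LS
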