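import Pool.Agent.TH280.LS.Stm
set_option autoImplicit false

/-! # Local smoothing for data with radially decreasing slices: statements of the steps -/

open MeasureTheory Set
open scoped ENNReal

namespace Pool.Agent.TH280.LS

/-- Euclidean length -/
noncomputable def nr {m : ℕ} (η : Fin m → ℝ) : ℝ := Real.sqrt (∑ i, η i ^ 2)

/-- weighted inequality for the Fourier transform with weight `ρ` -/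
def E4w (m : ℕ) (ρ : (Fin m → ℝ) → ℝ) : Prop := ∃ C : ℝ, 0 < C ∧
  ∀ H : (Fin m → ℝ) → ℂ, Integrable H →
  ∫⁻ y : Fin m → ℝ, ‖∫ η : Fin m → ℝ, e (∑ i, y i * η i) * H η‖ₑ ^ 4 ≤
    ENNReal.ofReal C * ∫⁻ η : Fin m → ℝ, ENNReal.ofReal (ρ η ^ 2) * ‖H η‖ₑ ^ 4

/-- the weight `|η|^m` -/
def S_E4R : Prop := ∀ m : ℕ, 0 < m → E4w m (fun η => nr η ^ m)

/-- the estimates for `p = 4` with weight `ρ` -/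
def T4w (m : ℕ) (ρ : (Fin m → ℝ) → ℝ) : Prop := ∀ s : ℝ, 0 < s → ∃ C : ℝ, 0 < C ∧ ∀ (τ : ℝ)
  (G : (Fin m → ℝ) → ℝ → ℂ), 0 < τ → τ ≤ 1 → Adm m G →
  (∫⁻ t in Icc (1 : ℝ) 2, ∫⁻ x : ℝ, ∫⁻ y : Fin m → ℝ, ‖Tm m (mc s τ t) G y x‖ₑ ^ 4 ≤
    ENNReal.ofReal C * ∫⁻ x : ℝ, ∫⁻ η : Fin m → ℝ,
      ENNReal.ofReal (ρ η ^ 2) * ‖G η x‖ₑ ^ 4) ∧
  (∫⁻ t in Icc (1 : ℝ) 2, ∫⁻ x : ℝ, ∫⁻ y : Fin m → ℝ, ‖Tm m (ms s τ t) G y x‖ₑ ^ 4 ≤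
    ENNReal.ofReal C * ∫⁻ x : ℝ, ∫⁻ η : Fin m → ℝ,
      ENNReal.ofReal (ρ η ^ 2) * ‖G η x‖ₑ ^ 4)

def S_T4W : Prop := ∀ (m : ℕ) (ρ : (Fin m → ℝ) → ℝ), 0 < m → Measurable ρ → (∀ η, 0 ≤ ρ η) →
  E4w m ρ → T4w m ρ

/-- the estimates for `2 ≤ p ≤ 4` with weight `ρ` -/
def TPw (m : ℕ) (ρ : (Fin m → ℝ) → ℝ) (p : ℝ) : Prop := ∀ s : ℝ, 0 < s → ∃ C : ℝ, 0 < C ∧
  ∀ (τ : ℝ) (G : (Fin m → ℝ) → ℝ → ℂ), 0 < τ → τ ≤ 1 → Adm m G →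
  (∫⁻ t in Icc (1 : ℝ) 2, ∫⁻ x : ℝ, ∫⁻ y : Fin m → ℝ, ‖Tm m (mc s τ t) G y x‖ₑ ^ p ≤
    ENNReal.ofReal C * ∫⁻ x : ℝ, ∫⁻ η : Fin m → ℝ,
      ENNReal.ofReal (ρ η ^ (p - 2)) * ‖G η x‖ₑ ^ p) ∧
  (∫⁻ t in Icc (1 : ℝ) 2, ∫⁻ x : ℝ, ∫⁻ y : Fin m → ℝ, ‖Tm m (ms s τ t) G y x‖ₑ ^ p ≤
    ENNReal.ofReal C * ∫⁻ x : ℝ, ∫⁻ η : Fin m → ℝ,
      ENNReal.ofReal (ρ η ^ (p - 2)) * ‖G η x‖ₑ ^ p)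

def S_TPW : Prop := ∀ (m : ℕ) (ρ : (Fin m → ℝ) → ℝ) (p : ℝ), 0 < m → Measurable ρ →
  (∀ η, 0 ≤ ρ η) → (∀ᵐ η : Fin m → ℝ, ρ η ≠ 0) → 2 ≤ p → p ≤ 4 → T4w m ρ → TPw m ρ p

/-- decay of the Fourier transform of balls -/
def S_BALL : Prop := ∀ m : ℕ, 0 < m → ∃ C : ℝ, 0 < C ∧ ∀ (R : ℝ) (η : Fin m → ℝ), 0 ≤ R →
  ‖ftm m ({y : Fin m → ℝ | nr y ≤ R}.indicator 1) η‖ ≤
    C * R ^ m * (1 + R * nr η) ^ (-(((m : ℝ) + 1) / 2))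

/-- radially decreasing functions in `m` variables -/
def S_CLR : Prop := ∀ (m : ℕ) (p : ℝ), 2 ≤ m → 2 ≤ p → p < 2 * m / (m - 1) → ∃ C : ℝ, 0 < C ∧
  ∀ (b : ℂ) (c : Fin m → ℝ) (F : ℝ → ℝ), AntitoneOn F (Ici 0) →
  Integrable (fun y : Fin m → ℝ => b * ((F (nr (y - c)) : ℝ) : ℂ)) →
  ∫⁻ η : Fin m → ℝ, ENNReal.ofReal ((nr η ^ m) ^ (p - 2)) *
      ‖ftm m (fun y => b * ((F (nr (y - c)) : ℝ) : ℂ)) η‖ₑ ^ p ≤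
    ENNReal.ofReal C * ∫⁻ y : Fin m → ℝ, ‖b * ((F (nr (y - c)) : ℝ) : ℂ)‖ₑ ^ p

end Pool.Agent.TH280.LS
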