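import Pool.Agent.TH280.LS.K1
set_option autoImplicit false

/-! # The estimate for one datum -/

open MeasureTheory Set
open scoped ENNReal FourierTransform RealInnerProductSpace

namespace Pool.Agent.TH280.LS

lemma measurable_mc (s τ t : ℝ) : Measurable (mc s τ t) := by
  unfold mc
  refine Measurable.mul (by fun_prop) (Measurable.mul (by fun_prop) ?_)
  exact Measurable.pow_const (by fun_prop) _

lemma measurable_ms (s τ t : ℝ) : Measurable (ms s τ t) := by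
  unfold ms
  refine Measurable.mul (by fun_prop) (Measurable.mul (by fun_prop) ?_)
  exact Measurable.pow_const (by fun_prop) _

lemma be_ge (r : ℝ) : 1 ≤ 1 + 4 * Real.pi ^ 2 * r ^ 2 := by
  have : 0 ≤ 4 * Real.pi ^ 2 * r ^ 2 := by positivity
  linarith

lemma mc_core (s t r : ℝ) (hs : 0 < s) :
    |Real.cos (2 * Real.pi * (t * r)) * (1 + 4 * Real.pi ^ 2 * r ^ 2) ^ (-(s / 2))| ≤ 1 := by
  rw [abs_mul]
  have h1 := Real.abs_cos_le_one (2 * Real.pi * (t * r))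
  have h2 : |(1 + 4 * Real.pi ^ 2 * r ^ 2) ^ (-(s / 2))| ≤ 1 := by
    rw [abs_of_nonneg (by have := be_ge r; positivity)]
    exact Real.rpow_le_one_of_one_le_of_nonpos (be_ge r) (by linarith)
  exact mul_le_one₀ h1 (abs_nonneg _) h2

lemma ms_core (s t r : ℝ) (hs : 0 ≤ s) (ht : |t| ≤ 2) (hr : 0 ≤ r) :
    |Real.sin (2 * Real.pi * (t * r)) / (2 * Real.pi * r) *
      (1 + 4 * Real.pi ^ 2 * r ^ 2) ^ ((1 - s) / 2)| ≤ 3 := by
  have hpi := Real.pi_pos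
  rcases hr.eq_or_lt with h | h
  · rw [← h]; simp
  set a := 2 * Real.pi * r with ha
  have ha0 : 0 < a := by positivity
  have hbe : 1 + 4 * Real.pi ^ 2 * r ^ 2 = 1 + a ^ 2 := by rw [ha]; ring
  rw [hbe, abs_mul, abs_div, abs_of_pos ha0]
  have hs1 : |Real.sin (2 * Real.pi * (t * r))| ≤ 1 := Real.abs_sin_le_one _
  have hs2 : |Real.sin (2 * Real.pi * (t * r))| ≤ 2 * a := by
    refine Real.abs_sin_le_abs.trans ?_
    rw [show 2 * Real.pi * (t * r) = t * a by rw [ha]; ring, abs_mul, abs_of_pos ha0]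
    exact mul_le_mul_of_nonneg_right ht ha0.le
  have hb1 : (1 + a ^ 2 : ℝ) ^ ((1 - s) / 2) ≤ 1 + a := by
    have h2 : (1 : ℝ) ≤ 1 + a ^ 2 := by nlinarith [sq_nonneg a]
    calc (1 + a ^ 2 : ℝ) ^ ((1 - s) / 2) ≤ (1 + a ^ 2) ^ (1 / 2 : ℝ) :=
          Real.rpow_le_rpow_of_exponent_le h2 (by linarith)
      _ ≤ ((1 + a) ^ 2) ^ (1 / 2 : ℝ) :=
          Real.rpow_le_rpow (by positivity) (by nlinarith) (by norm_num)
      _ = 1 + a := by
          rw [← Real.sqrt_eq_rpow, Real.sqrt_sq (by positivity)]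
  have hb0 : 0 ≤ (1 + a ^ 2 : ℝ) ^ ((1 - s) / 2) := by positivity
  rw [abs_of_nonneg hb0, div_mul_eq_mul_div, div_le_iff₀ ha0]
  have hs0 := abs_nonneg (Real.sin (2 * Real.pi * (t * r)))
  calc |Real.sin (2 * Real.pi * (t * r))| * (1 + a ^ 2) ^ ((1 - s) / 2)
      ≤ |Real.sin (2 * Real.pi * (t * r))| * (1 + a) := mul_le_mul_of_nonneg_left hb1 hs0
    _ = |Real.sin (2 * Real.pi * (t * r))| + |Real.sin (2 * Real.pi * (t * r))| * a := by ring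
    _ ≤ 2 * a + 1 * a := add_le_add hs2 (mul_le_mul_of_nonneg_right hs1 ha0.le)
    _ = 3 * a := by ring

lemma mc_le (s τ t r : ℝ) (hs : 0 < s) :
    |mc s τ t r| ≤ 1 * Real.exp (-(τ * r ^ 2)) := by
  unfold mc
  rw [abs_mul, abs_of_pos (Real.exp_pos _), mul_comm]
  exact mul_le_mul_of_nonneg_right (mc_core s t r hs) (Real.exp_pos _).le

lemma ms_le (s τ t r : ℝ) (hs : 0 < s) (ht : |t| ≤ 2) (hr : 0 ≤ r) :
    |ms s τ t r| ≤ 3 * Real.exp (-(τ * r ^ 2)) := by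
  unfold ms
  rw [abs_mul, abs_of_pos (Real.exp_pos _), mul_comm]
  exact mul_le_mul_of_nonneg_right (ms_core s t r hs.le ht hr) (Real.exp_pos _).le

/-- rotation invariance -/
lemma RM_rot (m : ℕ) (M : ℝ → ℝ) (f : EuclideanSpace ℝ (Fin (m + 1)) → ℂ)
    (L : EuclideanSpace ℝ (Fin (m + 1)) ≃ₗᵢ[ℝ] EuclideanSpace ℝ (Fin (m + 1)))
    (z : EuclideanSpace ℝ (Fin (m + 1))) :
    RM m M (fun z => f (L z)) z = RM m M f (L z) := by
  unfold RM
  rw [← L.measurePreserving.integral_comp L.toHomeomorph.measurableEmbedding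
    (fun ζ => e (⟪L z, ζ⟫ : ℝ) * (((M ‖ζ‖ : ℝ) : ℂ) * 𝓕 f ζ))]
  refine integral_congr_ae (Filter.Eventually.of_forall fun ζ => ?_)
  have h1 : 𝓕 (fun z => f (L z)) ζ = 𝓕 f (L ζ) := Real.fourier_comp_linearIsometry L f ζ
  change e (⟪z, ζ⟫ : ℝ) * (((M ‖ζ‖ : ℝ) : ℂ) * 𝓕 (fun z => f (L z)) ζ) =
    e (⟪L z, L ζ⟫ : ℝ) * (((M ‖L ζ‖ : ℝ) : ℂ) * 𝓕 f (L ζ))
  rw [h1, L.norm_map, L.inner_map_map]

lemma lint_rot (m : ℕ) (g : EuclideanSpace ℝ (Fin (m + 1)) → ℝ≥0∞)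
    (L : EuclideanSpace ℝ (Fin (m + 1)) ≃ₗᵢ[ℝ] EuclideanSpace ℝ (Fin (m + 1))) :
    ∫⁻ z, g (L z) = ∫⁻ z, g z :=
  L.measurePreserving.lintegral_comp_emb L.toHomeomorph.measurableEmbedding g

lemma measurable_RM (m : ℕ) (M : ℝ → ℝ) (hM : Measurable M)
    {f : EuclideanSpace ℝ (Fin (m + 1)) → ℂ} (hf : Integrable f) : Measurable (RM m M f) := by
  have hF : Continuous (𝓕 f) :=
    VectorFourier.fourierIntegral_continuous Real.continuous_fourierChar continuous_inner hf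
  have h1 : StronglyMeasurable (fun q : EuclideanSpace ℝ (Fin (m + 1)) ×
      EuclideanSpace ℝ (Fin (m + 1)) =>
      e (⟪q.1, q.2⟫ : ℝ) * (((M ‖q.2‖ : ℝ) : ℂ) * 𝓕 f q.2)) := by
    apply Measurable.stronglyMeasurable
    refine Measurable.mul (measurable_e.comp (by fun_prop)) (Measurable.mul
      (Complex.measurable_ofReal.comp (hM.comp (by fun_prop))) (hF.measurable.comp measurable_snd))
  exact (h1.integral_prod_right (ν := volume)).measurable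

lemma RM_congr (m : ℕ) (M : ℝ → ℝ) {f g : EuclideanSpace ℝ (Fin (m + 1)) → ℂ}
    (h : f =ᵐ[volume] g) : RM m M f = RM m M g := by
  have h1 : 𝓕 f = 𝓕 g := by
    funext ζ
    rw [Real.fourier_eq, Real.fourier_eq]
    refine integral_congr_ae ?_
    filter_upwards [h] with v hv
    rw [hv]
  funext z
  unfold RM
  rw [h1]

/-- norms of the operator in coordinates -/
lemma RM_lint (m : ℕ) (M : ℝ → ℝ) (hM : Measurable M) {C τ p : ℝ} (hτ : 0 < τ)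
    (hb : ∀ r, 0 ≤ r → |M r| ≤ C * Real.exp (-(τ * r ^ 2))) {f : ℝ × (Fin m → ℝ) → ℂ}
    (hf : Integrable f) :
    ∫⁻ z, ‖RM m M (fun z => f (Zc m z)) z‖ₑ ^ p =
      ∫⁻ x : ℝ, ∫⁻ y : Fin m → ℝ, ‖Tm m M (GG m f) y x‖ₑ ^ p := by
  have hfz : Integrable (fun z => f (Zc m z)) := (Zc_mp m).integrable_comp_of_integrable hf
  have h1 : ∀ q : ℝ × (Fin m → ℝ), Tm m M (GG m f) q.2 q.1 =
      RM m M (fun z => f (Zc m z)) ((Zc m).symm q) := by
    intro q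
    rw [RM_eq m M hM hτ hb hf, MeasurableEquiv.apply_symm_apply]
  have hmeas : Measurable (fun q : ℝ × (Fin m → ℝ) => Tm m M (GG m f) q.2 q.1) := by
    have : (fun q : ℝ × (Fin m → ℝ) => Tm m M (GG m f) q.2 q.1) =
        fun q => RM m M (fun z => f (Zc m z)) ((Zc m).symm q) := funext h1
    rw [this]
    exact (measurable_RM m M hM hfz).comp (Zc m).symm.measurable
  have h2 := (Zc_mp m).lintegral_comp_emb (Zc m).measurableEmbedding
    (fun q : ℝ × (Fin m → ℝ) => ‖Tm m M (GG m f) q.2 q.1‖ₑ ^ p)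
  rw [Measure.volume_eq_prod, lintegral_prod _ (hmeas.enorm.pow_const p).aemeasurable] at h2
  rw [← h2]
  refine lintegral_congr fun z => ?_
  rw [RM_eq m M hM hτ hb hf]

/-- the class of data -/
def InClass (m k : ℕ) (f : EuclideanSpace ℝ (Fin (m + 1)) → ℂ) : Prop :=
  ∃ (v : OrthonormalBasis (Fin (m + 1)) ℝ (EuclideanSpace ℝ (Fin (m + 1)))) (b : ℝ → ℂ)
    (F : Fin m → ℝ → ℝ → ℝ), (∀ i x, PM k (F i x)) ∧
    ∀ z, f z = b (⟪v (Fin.last m), z⟫ : ℝ) *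
      ∏ i : Fin m, ((F i (⟪v (Fin.last m), z⟫ : ℝ) (⟪v i.castSucc, z⟫ : ℝ) : ℝ) : ℂ)

/-- slices of data in the class -/
lemma class_slice (hCL : S_CL) (m k : ℕ) (p : ℝ) (hp : 2 ≤ p) : ∃ C : ℝ, 0 < C ∧
    ∀ (b : ℝ → ℂ) (F : Fin m → ℝ → ℝ → ℝ) (f f0 : ℝ × (Fin m → ℝ) → ℂ),
    (∀ i x, PM k (F i x)) → (∀ x y, f (x, y) = b x * ∏ i : Fin m, ((F i x (y i) : ℝ) : ℂ)) →
    Integrable f → f =ᵐ[volume] f0 →
    ∫⁻ x : ℝ, ∫⁻ η : Fin m → ℝ, ENNReal.ofReal ((∏ i, |η i|) ^ (p - 2)) * ‖GG m f0 η x‖ₑ ^ p ≤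
      ENNReal.ofReal C * ∫⁻ x : ℝ, ∫⁻ y : Fin m → ℝ, ‖f (x, y)‖ₑ ^ p := by
  obtain ⟨C, hC, h⟩ := hCL m k p hp
  refine ⟨C, hC, ?_⟩
  intro b F f f0 hF hf hfi hae
  have h1 : ∀ᵐ x : ℝ, ∀ᵐ y : Fin m → ℝ, f (x, y) = f0 (x, y) := Measure.ae_ae_of_ae_prod hae
  have h2 : ∀ᵐ x : ℝ, Integrable (fun y : Fin m → ℝ => f (x, y)) := hfi.prod_right_ae
  rw [← lintegral_const_mul' _ _ ENNReal.ofReal_ne_top]
  refine lintegral_mono_ae ?_
  filter_upwards [h1, h2] with x hx1 hx2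
  have h3 : ∀ η, GG m f0 η x = ftm m (fun y => b x * ∏ i : Fin m, ((F i x (y i) : ℝ) : ℂ)) η := by
    intro η
    unfold GG ftm
    refine integral_congr_ae ?_
    filter_upwards [hx1] with y hy
    rw [← hf x y, hy]
  simp only [h3]
  have h4 : (fun y : Fin m → ℝ => f (x, y)) =
      fun y => b x * ∏ i : Fin m, ((F i x (y i) : ℝ) : ℂ) := funext fun y => hf x y
  rw [h4] at hx2
  have h5 := h (b x) (fun i => F i x) (fun i => hF i x) hx2
  simp only [hf]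
  exact h5

/-- the estimate for one datum -/
theorem one_datum (hTP : S_TP) (hCL : S_CL) (m k : ℕ) (s p : ℝ) (hm : 0 < m) (hs : 0 < s)
    (hp2 : 2 ≤ p) (hp4 : p ≤ 4) : ∃ C : ℝ, 0 < C ∧
    ∀ f : EuclideanSpace ℝ (Fin (m + 1)) → ℂ, Integrable f → InClass m k f →
    ∀ τ : ℝ, 0 < τ → τ ≤ 1 →
    (∫⁻ t in Icc (1 : ℝ) 2, ∫⁻ z, ‖RM m (mc s τ t) f z‖ₑ ^ p ≤
      ENNReal.ofReal C * ∫⁻ z, ‖f z‖ₑ ^ p) ∧
    (∫⁻ t in Icc (1 : ℝ) 2, ∫⁻ z, ‖RM m (ms s τ t) f z‖ₑ ^ p ≤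
      ENNReal.ofReal C * ∫⁻ z, ‖f z‖ₑ ^ p) := by
  obtain ⟨C1, hC1, h1⟩ := hTP m s p hm hs hp2 hp4
  obtain ⟨C2, hC2, h2⟩ := class_slice hCL m k p hp2
  refine ⟨C1 * C2, mul_pos hC1 hC2, ?_⟩
  rintro f hf ⟨v, b, F, hF, hfe⟩ τ hτ hτ1
  -- rotate
  set L := v.repr with hL
  set f' : EuclideanSpace ℝ (Fin (m + 1)) → ℂ := fun z => b (z (Fin.last m)) *
      ∏ i : Fin m, ((F i (z (Fin.last m)) (z i.castSucc) : ℝ) : ℂ) with hf'
  have hff : f = fun z => f' (L z) := by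
    funext z
    rw [hfe z, hf']
    simp only [hL, OrthonormalBasis.repr_apply_apply]
  have hf'i : Integrable f' := by
    have h3 : f' = fun z => f (L.symm z) := by
      funext z
      rw [hff]
      simp only [LinearIsometryEquiv.apply_symm_apply]
    rw [h3]
    exact L.symm.measurePreserving.integrable_comp_of_integrable hf
  -- coordinates
  set g : ℝ × (Fin m → ℝ) → ℂ := fun q => f' ((Zc m).symm q) with hg
  have hgi : Integrable g := ((Zc_mp m).symm _).integrable_comp_of_integrable hf'i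
  have hgf : (fun z => g (Zc m z)) = f' := by
    funext z
    simp only [hg, MeasurableEquiv.symm_apply_apply]
  have hge : ∀ x y, g (x, y) = b x * ∏ i : Fin m, ((F i x (y i) : ℝ) : ℂ) := by
    intro x y
    have h4 : Zc m ((Zc m).symm (x, y)) = (x, y) := MeasurableEquiv.apply_symm_apply _ _
    rw [Zc_apply] at h4
    have h5 : ((Zc m).symm (x, y)) (Fin.last m) = x := congrArg Prod.fst h4
    have h6 : ∀ i : Fin m, ((Zc m).symm (x, y)) i.castSucc = y i :=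
      fun i => congrFun (congrArg Prod.snd h4) i
    simp only [hg, hf', h5, h6]
  -- measurable modification
  obtain ⟨g0, hg0m, hg0e⟩ : ∃ g0 : ℝ × (Fin m → ℝ) → ℂ, Measurable g0 ∧ g =ᵐ[volume] g0 :=
    ⟨hgi.1.mk g, hgi.1.stronglyMeasurable_mk.measurable, hgi.1.ae_eq_mk⟩
  have hg0i : Integrable g0 := hgi.congr hg0e
  have hcong : (fun z => g (Zc m z)) =ᵐ[volume] fun z => g0 (Zc m z) :=
    (Zc_mp m).quasiMeasurePreserving.ae_eq_comp hg0e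
  have hRM : ∀ M : ℝ → ℝ, ∀ z, RM m M f z = RM m M (fun z => g0 (Zc m z)) (L z) := by
    intro M z
    rw [← RM_congr m M hcong, hgf, hff, RM_rot]
  have hR : ENNReal.ofReal C1 * ∫⁻ x : ℝ, ∫⁻ η : Fin m → ℝ,
      ENNReal.ofReal ((∏ i, |η i|) ^ (p - 2)) * ‖GG m g0 η x‖ₑ ^ p ≤
      ENNReal.ofReal (C1 * C2) * ∫⁻ z, ‖f z‖ₑ ^ p := by
    rw [ENNReal.ofReal_mul hC1.le, mul_assoc]
    refine mul_le_mul_right ?_ _
    refine (h2 b F g g0 hF hge hgi hg0e).trans (mul_le_mul_right ?_ _)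
    apply le_of_eq
    have h7 : AEMeasurable (fun q : ℝ × (Fin m → ℝ) => ‖g q‖ₑ ^ p) :=
      hgi.1.aemeasurable.enorm.pow_const p
    have h8 : ∫⁻ z, ‖f z‖ₑ ^ p = ∫⁻ z, ‖f' z‖ₑ ^ p := by
      rw [hff]
      exact lint_rot m (fun z => ‖f' z‖ₑ ^ p) L
    rw [h8, ← hgf]
    rw [(Zc_mp m).lintegral_comp_emb (Zc m).measurableEmbedding (fun q => ‖g q‖ₑ ^ p),
      Measure.volume_eq_prod, lintegral_prod _ h7]
  have hLi : ∀ (M : ℝ → ℝ), ∫⁻ z, ‖RM m M f z‖ₑ ^ p =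
      ∫⁻ z, ‖RM m M (fun z => g0 (Zc m z)) z‖ₑ ^ p := by
    intro M
    simp only [hRM M]
    exact lint_rot m (fun z => ‖RM m M (fun z => g0 (Zc m z)) z‖ₑ ^ p) L
  have hTPg := h1 τ (GG m g0) hτ hτ1 (GG_adm m hg0i hg0m)
  constructor
  · refine (le_of_eq ?_).trans (hTPg.1.trans hR)
    refine setLIntegral_congr_fun measurableSet_Icc fun t ht => ?_
    rw [hLi, RM_lint m (mc s τ t) (measurable_mc s τ t) hτ (fun r _ => mc_le s τ t r hs) hg0i]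
  · refine (le_of_eq ?_).trans (hTPg.2.trans hR)
    refine setLIntegral_congr_fun measurableSet_Icc fun t ht => ?_
    have ht2 : |t| ≤ 2 := by rw [abs_of_nonneg (by linarith [ht.1])]; exact ht.2
    rw [hLi, RM_lint m (ms s τ t) (measurable_ms s τ t) hτ
      (fun r hr => ms_le s τ t r hs ht2 hr) hg0i]

end Pool.Agent.TH280.LS
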