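import Mathlib
set_option autoImplicit false

/-! # Local smoothing: characters, Fourier transforms, Plancherel -/

open MeasureTheory Set Complex
open scoped ENNReal FourierTransform ContDiff RealInnerProductSpace SchwartzMap

namespace Pool.Agent.TH280.LS

/-- `e(x) = e^{2 pi i x}` -/
noncomputable def e (x : ℝ) : ℂ := Complex.exp (((2 * Real.pi * x : ℝ) : ℂ) * I)

/-- Fourier transform on the line -/
noncomputable def ft (G : ℝ → ℂ) (ξ : ℝ) : ℂ := ∫ x : ℝ, e (-(x * ξ)) * G x

lemma e_zero : e 0 = 1 := by simp [e]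

lemma e_add (x y : ℝ) : e (x + y) = e x * e y := by
  unfold e; rw [← Complex.exp_add]; congr 1; push_cast; ring

lemma norm_e (x : ℝ) : ‖e x‖ = 1 := Complex.norm_exp_ofReal_mul_I _

lemma continuous_e : Continuous e := by unfold e; fun_prop

lemma measurable_e : Measurable e := continuous_e.measurable

lemma e_conj (x : ℝ) : (starRingEnd ℂ) (e x) = e (-x) := by
  unfold e
  rw [← Complex.exp_conj, map_mul, Complex.conj_ofReal, Complex.conj_I]
  congr 1; push_cast; ring

lemma e_cos (x : ℝ) : e x + e (-x) = 2 * ((Real.cos (2 * Real.pi * x) : ℝ) : ℂ) := by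
  unfold e
  rw [Complex.ofReal_cos, Complex.two_cos]
  congr 2
  push_cast; ring

lemma e_sin (x : ℝ) : e x - e (-x) = 2 * I * ((Real.sin (2 * Real.pi * x) : ℝ) : ℂ) := by
  unfold e
  rw [Complex.exp_ofReal_mul_I, Complex.exp_ofReal_mul_I, mul_neg, Real.cos_neg, Real.sin_neg]
  push_cast; ring

/-- Plancherel for integrable, square integrable functions -/
theorem plancherel {V : Type*} [NormedAddCommGroup V] [InnerProductSpace ℝ V]
    [FiniteDimensional ℝ V] [MeasurableSpace V] [BorelSpace V]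
    (f : V → ℂ) (hf : Integrable f) (hf2 : MemLp f 2) :
    ∫⁻ ξ : V, ‖FourierTransform.fourier f ξ‖ₑ ^ 2 = ∫⁻ z : V, ‖f z‖ₑ ^ 2 := by
  obtain ⟨F2, hF2⟩ : ∃ F2 : Lp ℂ 2 (volume : Measure V), F2 = hf2.toLp f := ⟨_, rfl⟩
  obtain ⟨G, hG⟩ : ∃ G : Lp ℂ 2 (volume : Measure V), G = 𝓕 F2 := ⟨_, rfl⟩
  have hF2ae : (F2 : V → ℂ) =ᵐ[volume] f := by rw [hF2]; exact hf2.coeFn_toLp
  have key : ∀ g : 𝓢(V, ℂ), ∫ x, g x • (G x) = ∫ x, g x • FourierTransform.fourier f x := by
    intro g
    have h1 : (𝓕 (F2 : 𝓢'(V, ℂ))) g = ((𝓕 F2 : Lp ℂ 2 (volume : Measure V)) : 𝓢'(V, ℂ)) g := by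
      rw [Lp.fourier_toTemperedDistribution_eq]
    rw [TemperedDistribution.fourier_apply, Lp.toTemperedDistribution_apply,
      Lp.toTemperedDistribution_apply, ← hG] at h1
    rw [← h1]
    have h2 : ∫ x, (𝓕 g) x • F2 x = ∫ x, (𝓕 g) x • f x := by
      apply integral_congr_ae
      filter_upwards [hF2ae] with x hx
      rw [hx]
    rw [h2]
    have h3 := VectorFourier.integral_fourierIntegral_smul_eq_flip (L := innerₗ V)
      (μ := (volume : Measure V)) (ν := (volume : Measure V))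
      Real.continuous_fourierChar continuous_inner g.integrable hf
    rw [flip_innerₗ] at h3
    exact h3
  have hGae : (G : V → ℂ) =ᵐ[volume] FourierTransform.fourier f := by
    have hcont : Continuous (FourierTransform.fourier f : V → ℂ) :=
      VectorFourier.fourierIntegral_continuous Real.continuous_fourierChar continuous_inner hf
    apply ae_eq_of_integral_contDiff_smul_eq
    · exact (Lp.memLp G).locallyIntegrable (by norm_num)
    · exact hcont.locallyIntegrable
    · intro g g_smooth g_cpt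
      have hg₁ : HasCompactSupport (Complex.ofRealCLM ∘ g) := g_cpt.comp_left rfl
      have hg₂ : ContDiff ℝ ∞ (Complex.ofRealCLM ∘ g) := by fun_prop
      have := key (hg₁.toSchwartzMap hg₂)
      simpa using this
  have hnorm : eLpNorm G 2 volume = eLpNorm f 2 volume := by
    have h1 : ‖G‖ = ‖F2‖ := by rw [hG]; exact Lp.norm_fourier_eq F2
    have h2 : eLpNorm G 2 volume = eLpNorm F2 2 volume := by
      rw [Lp.norm_def, Lp.norm_def] at h1
      exact (ENNReal.toReal_eq_toReal_iff' (Lp.eLpNorm_ne_top G) (Lp.eLpNorm_ne_top F2)).1 h1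
    rw [h2]
    exact eLpNorm_congr_ae hF2ae
  have h2 : ∀ h : V → ℂ, eLpNorm h 2 volume ^ 2 = ∫⁻ z : V, ‖h z‖ₑ ^ 2 := by
    intro h
    rw [eLpNorm_eq_lintegral_rpow_enorm_toReal (by norm_num) (by norm_num)]
    simp only [ENNReal.toReal_ofNat, ENNReal.rpow_ofNat, one_div]
    rw [← ENNReal.rpow_natCast, ← ENNReal.rpow_mul]
    norm_num
  rw [← h2, ← h2, ← hnorm, eLpNorm_congr_ae hGae]

lemma ft_eq (G : ℝ → ℂ) (ξ : ℝ) : ft G ξ = FourierTransform.fourier G ξ := by
  rw [Real.fourier_real_eq_integral_exp_smul]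
  unfold ft e
  refine integral_congr_ae (Filter.Eventually.of_forall fun x => ?_)
  simp only [smul_eq_mul]
  congr 2
  push_cast; ring

/-- Plancherel for `ft` -/
theorem ft_planch (G : ℝ → ℂ) (h1 : Integrable G) (h2 : MemLp G 2) :
    ∫⁻ ξ : ℝ, ‖ft G ξ‖ₑ ^ 2 = ∫⁻ x : ℝ, ‖G x‖ₑ ^ 2 := by
  rw [← plancherel G h1 h2]
  exact lintegral_congr fun ξ => by rw [ft_eq]

/-- Plancherel for the inverse transform -/
theorem ift_planch (q : ℝ → ℂ) (h1 : Integrable q) (h2 : MemLp q 2) :
    ∫⁻ x : ℝ, ‖∫ ξ : ℝ, e (x * ξ) * q ξ‖ₑ ^ 2 = ∫⁻ ξ : ℝ, ‖q ξ‖ₑ ^ 2 := by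
  rw [← ft_planch q h1 h2]
  rw [← (Measure.measurePreserving_neg (volume : Measure ℝ)).lintegral_comp_emb
    (MeasurableEquiv.neg ℝ).measurableEmbedding (fun ξ => ‖ft q ξ‖ₑ ^ 2)]
  refine lintegral_congr fun x => ?_
  have : (∫ ξ : ℝ, e (x * ξ) * q ξ) = ft q (MeasurableEquiv.neg ℝ x) := by
    unfold ft
    refine integral_congr_ae (Filter.Eventually.of_forall fun ξ => ?_)
    change e (x * ξ) * q ξ = e (-(ξ * -x)) * q ξ
    congr 2; ring
  rw [this]; rfl

lemma continuous_ft {G : ℝ → ℂ} (h : Integrable G) : Continuous (ft G) := by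
  have : ft G = FourierTransform.fourier G := funext fun ξ => ft_eq G ξ
  rw [this]
  exact VectorFourier.fourierIntegral_continuous Real.continuous_fourierChar continuous_inner h

lemma norm_ft_le (G : ℝ → ℂ) (ξ : ℝ) : ‖ft G ξ‖ ≤ ∫ x, ‖G x‖ := by
  unfold ft
  refine (norm_integral_le_integral_norm _).trans (le_of_eq ?_)
  refine integral_congr_ae (Filter.Eventually.of_forall fun x => ?_)
  simp only [norm_mul, norm_e, one_mul]

/-- multiplication formula -/
theorem ft_mul {f g : ℝ → ℂ} (hf : Integrable f) (hg : Integrable g) :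
    ∫ ξ, f ξ * ft g ξ = ∫ v, ft f v * g v := by
  have h3 : ∫ ξ, (VectorFourier.fourierIntegral Real.fourierChar volume (innerₗ ℝ) f ξ) • (g ξ) =
      ∫ x, (f x) • (VectorFourier.fourierIntegral Real.fourierChar volume (innerₗ ℝ).flip g x) :=
    VectorFourier.integral_fourierIntegral_smul_eq_flip
      Real.continuous_fourierChar continuous_inner hf hg
  rw [flip_innerₗ] at h3
  have e1 : ft f = FourierTransform.fourier f := funext fun ξ => ft_eq f ξ
  have e2 : ft g = FourierTransform.fourier g := funext fun ξ => ft_eq g ξ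
  rw [e1, e2]
  exact h3.symm

/-- Plancherel in several variables, in coordinates -/
theorem ftm_planch {m : ℕ} (H : (Fin m → ℝ) → ℂ) (h1 : Integrable H) (h2 : MemLp H 2) :
    ∫⁻ y : Fin m → ℝ, ‖∫ η : Fin m → ℝ, e (∑ i, y i * η i) * H η‖ₑ ^ 2 =
      ∫⁻ η : Fin m → ℝ, ‖H η‖ₑ ^ 2 := by
  have mp0 := EuclideanSpace.volume_preserving_symm_measurableEquiv_toLp (Fin m)
  set T : EuclideanSpace ℝ (Fin m) ≃ᵐ (Fin m → ℝ) :=
    (MeasurableEquiv.toLp 2 (Fin m → ℝ)).symm with hT
  have mp : MeasurePreserving T := mp0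
  set f : EuclideanSpace ℝ (Fin m) → ℂ := fun z => H (T z) with hf
  have hf1 : Integrable f := mp.integrable_comp_of_integrable h1
  have hf2 : MemLp f 2 := h2.comp_measurePreserving mp
  have h3 := plancherel f hf1 hf2
  rw [← mp.lintegral_comp_emb T.measurableEmbedding (fun η => ‖H η‖ₑ ^ 2), ← h3]
  have hneg := (Measure.measurePreserving_neg (volume : Measure (Fin m → ℝ))).lintegral_comp_emb
    (MeasurableEquiv.neg (Fin m → ℝ)).measurableEmbedding
    (fun y => ‖∫ η : Fin m → ℝ, e (∑ i, y i * η i) * H η‖ₑ ^ 2)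
  rw [← hneg]
  rw [← mp.lintegral_comp_emb T.measurableEmbedding]
  refine lintegral_congr fun ξ => ?_
  congr 2
  rw [Real.fourier_eq]
  rw [← mp.integral_comp T.measurableEmbedding]
  refine integral_congr_ae (Filter.Eventually.of_forall fun v => ?_)
  simp only [hf]
  rw [Circle.smul_def, smul_eq_mul]
  congr 1
  unfold e
  rw [Real.fourierChar_apply]
  congr 2
  rw [PiLp.inner_apply]
  simp only [RCLike.inner_apply, conj_trivial]
  have : ∀ z : EuclideanSpace ℝ (Fin m), ∀ i, T z i = z i := fun z i => rfl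
  simp only [Pi.neg_apply, this]
  congr 1
  rw [← Finset.sum_neg_distrib]
  congr 1
  refine Finset.sum_congr rfl fun i _ => ?_
  ring

end Pool.Agent.TH280.LS
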