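import Pool.Agent.TH280.LS.Stm
set_option autoImplicit false

/-! # Coordinates, slices -/

open MeasureTheory Set
open scoped ENNReal FourierTransform RealInnerProductSpace

namespace Pool.Agent.TH280.LS

/-- coordinates: the last one and the others -/
noncomputable def Zc (m : ℕ) : EuclideanSpace ℝ (Fin (m + 1)) ≃ᵐ ℝ × (Fin m → ℝ) :=
  (MeasurableEquiv.toLp 2 (Fin (m + 1) → ℝ)).symm.trans
    (MeasurableEquiv.piFinSuccAbove (fun _ => ℝ) (Fin.last m))

lemma Zc_apply (m : ℕ) (z : EuclideanSpace ℝ (Fin (m + 1))) :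
    Zc m z = (z (Fin.last m), fun i : Fin m => z i.castSucc) := by
  refine Prod.ext rfl ?_
  funext i
  change z ((Fin.last m).succAbove i) = z i.castSucc
  rw [Fin.succAbove_last]

lemma Zc_mp (m : ℕ) : MeasurePreserving (Zc m) :=
  (EuclideanSpace.volume_preserving_symm_measurableEquiv_toLp (Fin (m + 1))).trans
    (volume_preserving_piFinSuccAbove (fun _ => ℝ) (Fin.last m))

lemma inner_Zc (m : ℕ) (z w : EuclideanSpace ℝ (Fin (m + 1))) :
    (⟪z, w⟫ : ℝ) = (Zc m z).1 * (Zc m w).1 + ∑ i : Fin m, (Zc m z).2 i * (Zc m w).2 i := by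
  rw [Zc_apply, Zc_apply, PiLp.inner_apply, Fin.sum_univ_castSucc, add_comm]
  simp only [RCLike.inner_apply, conj_trivial]
  congr 1
  · ring
  · exact Finset.sum_congr rfl fun i _ => by ring

lemma norm_Zc (m : ℕ) (z : EuclideanSpace ℝ (Fin (m + 1))) :
    ‖z‖ = Real.sqrt ((Zc m z).1 ^ 2 + ∑ i : Fin m, (Zc m z).2 i ^ 2) := by
  rw [EuclideanSpace.norm_eq, Zc_apply, Fin.sum_univ_castSucc, add_comm]
  simp only [Real.norm_eq_abs, sq_abs]

lemma ra_eq (m : ℕ) (η : Fin m → ℝ) (ξ : ℝ) :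
    ra (Real.sqrt (∑ i, η i ^ 2)) ξ = Real.sqrt (ξ ^ 2 + ∑ i, η i ^ 2) := by
  unfold ra
  rw [Real.sq_sqrt (Finset.sum_nonneg fun i _ => sq_nonneg _)]

/-- Gaussians are integrable -/
lemma gauss_int (m : ℕ) {τ : ℝ} (hτ : 0 < τ) : Integrable
    (fun q : ℝ × (Fin m → ℝ) => Real.exp (-(τ * (q.1 ^ 2 + ∑ i, q.2 i ^ 2)))) := by
  have h1 : Integrable (fun ξ : ℝ => Real.exp (-τ * ξ ^ 2)) := integrable_exp_neg_mul_sq hτ
  have h2 : Integrable (fun η : Fin m → ℝ => ∏ i, Real.exp (-τ * η i ^ 2)) :=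
    Integrable.fintype_prod (f := fun _ => fun ξ : ℝ => Real.exp (-τ * ξ ^ 2)) fun i => h1
  refine (h1.mul_prod h2).congr (Filter.Eventually.of_forall fun q => ?_)
  simp only
  rw [← Real.exp_sum, ← Real.exp_add]
  congr 1
  rw [← Finset.mul_sum]
  ring

/-- multiplier operator with radial multiplier -/
noncomputable def RM (m : ℕ) (M : ℝ → ℝ) (f : EuclideanSpace ℝ (Fin (m + 1)) → ℂ)
    (z : EuclideanSpace ℝ (Fin (m + 1))) : ℂ :=
  ∫ ζ : EuclideanSpace ℝ (Fin (m + 1)), e (⟪z, ζ⟫ : ℝ) * (((M ‖ζ‖ : ℝ) : ℂ) * 𝓕 f ζ)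

/-- the slices -/
noncomputable def GG (m : ℕ) (f : ℝ × (Fin m → ℝ) → ℂ) (η : Fin m → ℝ) (x : ℝ) : ℂ :=
  ftm m (fun y => f (x, y)) η

lemma norm_GG_le (m : ℕ) (f : ℝ × (Fin m → ℝ) → ℂ) (η : Fin m → ℝ) (x : ℝ) :
    ‖GG m f η x‖ ≤ ∫ y, ‖f (x, y)‖ := by
  unfold GG ftm
  refine (norm_integral_le_integral_norm _).trans (le_of_eq ?_)
  refine integral_congr_ae (Filter.Eventually.of_forall fun y => ?_)
  simp only [norm_mul, norm_e, one_mul]

lemma GG_int (m : ℕ) {f : ℝ × (Fin m → ℝ) → ℂ} (hf : Integrable f) :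
    Integrable (fun x : ℝ => ∫ y, ‖f (x, y)‖) := hf.norm.integral_prod_left

lemma GG_adm (m : ℕ) {f : ℝ × (Fin m → ℝ) → ℂ} (hf : Integrable f) (hfm : Measurable f) :
    Adm m (GG m f) := by
  refine ⟨?_, fun x => ∫ y, ‖f (x, y)‖, GG_int m hf, fun η x => norm_GG_le m f η x⟩
  have h1 : StronglyMeasurable (fun q : ((Fin m → ℝ) × ℝ) × (Fin m → ℝ) =>
      e (-(∑ i, q.2 i * q.1.1 i)) * f (q.1.2, q.2)) := by
    apply Measurable.stronglyMeasurable
    refine Measurable.mul ?_ ?_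
    · exact measurable_e.comp (Measurable.neg (by fun_prop))
    · exact hfm.comp (by fun_prop)
  exact (h1.integral_prod_right' (ν := volume)).measurable

lemma fourier_GG (m : ℕ) {f : ℝ × (Fin m → ℝ) → ℂ} (hf : Integrable f)
    (ζ : EuclideanSpace ℝ (Fin (m + 1))) :
    𝓕 (fun z => f (Zc m z)) ζ = ft (GG m f (Zc m ζ).2) (Zc m ζ).1 := by
  rw [Real.fourier_eq]
  have h1 : ∫ v : EuclideanSpace ℝ (Fin (m + 1)), Real.fourierChar (-⟪v, ζ⟫) • f (Zc m v) =
      ∫ q : ℝ × (Fin m → ℝ), e (-(q.1 * (Zc m ζ).1)) * (e (-(∑ i, q.2 i * (Zc m ζ).2 i)) * f q) := by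
    rw [← (Zc_mp m).integral_comp (Zc m).measurableEmbedding]
    refine integral_congr_ae (Filter.Eventually.of_forall fun v => ?_)
    simp only
    rw [Circle.smul_def, smul_eq_mul, ← mul_assoc, ← e_add]
    congr 1
    rw [Real.fourierChar_apply, inner_Zc]
    unfold e
    congr 2
    push_cast
    ring
  rw [h1]
  have hint : Integrable (fun q : ℝ × (Fin m → ℝ) =>
      e (-(q.1 * (Zc m ζ).1)) * (e (-(∑ i, q.2 i * (Zc m ζ).2 i)) * f q)) := by
    refine Integrable.bdd_mul (c := 1) (Integrable.bdd_mul (c := 1) hf ?_ ?_) ?_ ?_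
    · exact (measurable_e.comp (Measurable.neg (by fun_prop))).aestronglyMeasurable
    · exact Filter.Eventually.of_forall fun q => (norm_e _).le
    · exact (measurable_e.comp (Measurable.neg (by fun_prop))).aestronglyMeasurable
    · exact Filter.Eventually.of_forall fun q => (norm_e _).le
  rw [Measure.volume_eq_prod, integral_prod _ hint]
  unfold ft GG ftm
  refine integral_congr_ae (Filter.Eventually.of_forall fun x => ?_)
  simp only
  rw [integral_const_mul]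

lemma norm_ft_GG (m : ℕ) {f : ℝ × (Fin m → ℝ) → ℂ} (hf : Integrable f) (η : Fin m → ℝ) (ξ : ℝ) :
    ‖ft (GG m f η) ξ‖ ≤ ∫ x, ∫ y, ‖f (x, y)‖ := by
  refine (norm_ft_le _ _).trans ?_
  exact integral_mono_of_nonneg (Filter.Eventually.of_forall fun x => norm_nonneg _)
    (GG_int m hf) (Filter.Eventually.of_forall fun x => norm_GG_le m f η x)

/-- the operator in coordinates -/
theorem RM_eq (m : ℕ) (M : ℝ → ℝ) (hM : Measurable M) {C τ : ℝ} (hτ : 0 < τ)
    (hb : ∀ r, 0 ≤ r → |M r| ≤ C * Real.exp (-(τ * r ^ 2))) {f : ℝ × (Fin m → ℝ) → ℂ}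
    (hf : Integrable f) (z : EuclideanSpace ℝ (Fin (m + 1))) :
    RM m M (fun z => f (Zc m z)) z = Tm m M (GG m f) (Zc m z).2 (Zc m z).1 := by
  unfold RM
  have h1 : ∫ ζ : EuclideanSpace ℝ (Fin (m + 1)), e (⟪z, ζ⟫ : ℝ) *
      (((M ‖ζ‖ : ℝ) : ℂ) * 𝓕 (fun z => f (Zc m z)) ζ) =
      ∫ q : ℝ × (Fin m → ℝ), e (∑ i, (Zc m z).2 i * q.2 i) * (e ((Zc m z).1 * q.1) *
        (((M (ra (Real.sqrt (∑ i, q.2 i ^ 2)) q.1) : ℝ) : ℂ) * ft (GG m f q.2) q.1)) := by
    rw [← (Zc_mp m).integral_comp (Zc m).measurableEmbedding]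
    refine integral_congr_ae (Filter.Eventually.of_forall fun ζ => ?_)
    simp only
    rw [fourier_GG m hf, ra_eq, ← norm_Zc, ← mul_assoc (e _) (e _), ← e_add, inner_Zc]
    congr 2
    ring
  rw [h1]
  set K : ℝ := ∫ x, ∫ y, ‖f (x, y)‖ with hK
  have hmeas : AEStronglyMeasurable (fun q : ℝ × (Fin m → ℝ) =>
      e (∑ i, (Zc m z).2 i * q.2 i) * (e ((Zc m z).1 * q.1) *
        (((M (ra (Real.sqrt (∑ i, q.2 i ^ 2)) q.1) : ℝ) : ℂ) * ft (GG m f q.2) q.1))) := by
    have hF : Continuous (𝓕 (fun z => f (Zc m z))) :=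
      VectorFourier.fourierIntegral_continuous Real.continuous_fourierChar continuous_inner
        ((Zc_mp m).integrable_comp_of_integrable hf)
    have h2 : (fun q : ℝ × (Fin m → ℝ) => ft (GG m f q.2) q.1) =
        fun q => 𝓕 (fun z => f (Zc m z)) ((Zc m).symm q) := by
      funext q
      rw [fourier_GG m hf, MeasurableEquiv.apply_symm_apply]
    have h3 : Measurable (fun q : ℝ × (Fin m → ℝ) => ft (GG m f q.2) q.1) := by
      rw [h2]; exact hF.measurable.comp (Zc m).symm.measurable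
    have h4 : Measurable (fun q : ℝ × (Fin m → ℝ) => M (ra (Real.sqrt (∑ i, q.2 i ^ 2)) q.1)) := by
      refine hM.comp ?_
      unfold ra
      fun_prop
    refine Measurable.aestronglyMeasurable ?_
    refine Measurable.mul (measurable_e.comp (by fun_prop)) (Measurable.mul
      (measurable_e.comp (by fun_prop)) (Measurable.mul (Complex.measurable_ofReal.comp h4) h3))
  have hint : Integrable (fun q : ℝ × (Fin m → ℝ) =>
      e (∑ i, (Zc m z).2 i * q.2 i) * (e ((Zc m z).1 * q.1) *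
        (((M (ra (Real.sqrt (∑ i, q.2 i ^ 2)) q.1) : ℝ) : ℂ) * ft (GG m f q.2) q.1))) := by
    refine Integrable.mono' (((gauss_int m hτ).const_mul C).mul_const K) hmeas ?_
    refine Filter.Eventually.of_forall fun q => ?_
    rw [norm_mul, norm_mul, norm_mul, norm_e, norm_e, one_mul, one_mul, Complex.norm_real]
    have h5 := hb (ra (Real.sqrt (∑ i, q.2 i ^ 2)) q.1) (Real.sqrt_nonneg _)
    have h6 := norm_ft_GG m hf q.2 q.1
    have h7 : ra (Real.sqrt (∑ i, q.2 i ^ 2)) q.1 ^ 2 = q.1 ^ 2 + ∑ i, q.2 i ^ 2 := by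
      rw [ra_eq, Real.sq_sqrt]
      exact add_nonneg (sq_nonneg _) (Finset.sum_nonneg fun i _ => sq_nonneg _)
    rw [h7] at h5
    rw [Real.norm_eq_abs]
    exact mul_le_mul h5 h6 (norm_nonneg _) ((abs_nonneg _).trans h5)
  rw [Measure.volume_eq_prod, integral_prod_symm _ hint]
  unfold Tm Ux
  refine integral_congr_ae (Filter.Eventually.of_forall fun η => ?_)
  simp only
  rw [integral_const_mul]

end Pool.Agent.TH280.LS
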