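import Pool.Agent.TH280.LS.K2
set_option autoImplicit false

/-! # The wave equation -/

open MeasureTheory Set Filter
open scoped ENNReal FourierTransform RealInnerProductSpace Topology

namespace Pool.Agent.TH280.LS

/-- the solution -/
noncomputable def wv (d : ℕ) (s τ : ℝ) (f0 f1 : EuclideanSpace ℝ (Fin d) → ℂ) (t : ℝ)
    (z : EuclideanSpace ℝ (Fin d)) : ℂ :=
  ∫ ζ : EuclideanSpace ℝ (Fin d), e (⟪z, ζ⟫ : ℝ) * (((Real.exp (-(τ * ‖ζ‖ ^ 2)) : ℝ) : ℂ) *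
    (((Real.cos (2 * Real.pi * (t * ‖ζ‖)) *
        (1 + 4 * Real.pi ^ 2 * ‖ζ‖ ^ 2) ^ (-(s / 2)) : ℝ) : ℂ) * 𝓕 f0 ζ +
     ((Real.sin (2 * Real.pi * (t * ‖ζ‖)) / (2 * Real.pi * ‖ζ‖) *
        (1 + 4 * Real.pi ^ 2 * ‖ζ‖ ^ 2) ^ ((1 - s) / 2) : ℝ) : ℂ) * 𝓕 f1 ζ))

lemma cont_four {d : ℕ} {f : EuclideanSpace ℝ (Fin d) → ℂ} (hf : Integrable f) :
    Continuous (𝓕 f) :=
  VectorFourier.fourierIntegral_continuous Real.continuous_fourierChar continuous_inner hf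

lemma norm_four_le {d : ℕ} (f : EuclideanSpace ℝ (Fin d) → ℂ) (ζ : EuclideanSpace ℝ (Fin d)) :
    ‖𝓕 f ζ‖ ≤ ∫ z, ‖f z‖ := by
  rw [Real.fourier_eq]
  refine (norm_integral_le_integral_norm _).trans (le_of_eq ?_)
  refine integral_congr_ae (Eventually.of_forall fun x => ?_)
  simp only [Circle.norm_smul]

lemma gauss_int' (m : ℕ) {τ : ℝ} (hτ : 0 < τ) : Integrable
    (fun ζ : EuclideanSpace ℝ (Fin (m + 1)) => Real.exp (-(τ * ‖ζ‖ ^ 2))) := by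
  have h1 := (Zc_mp m).integrable_comp_of_integrable (gauss_int m hτ)
  refine h1.congr (Eventually.of_forall fun ζ => ?_)
  change Real.exp (-(τ * ((Zc m ζ).1 ^ 2 + ∑ i, (Zc m ζ).2 i ^ 2))) =
    Real.exp (-(τ * ‖ζ‖ ^ 2))
  rw [norm_Zc, Real.sq_sqrt]
  exact add_nonneg (sq_nonneg _) (Finset.sum_nonneg fun i _ => sq_nonneg _)

lemma int_piece (m : ℕ) (M : ℝ → ℝ) (hM : Measurable M) {C τ : ℝ} (hτ : 0 < τ)
    (hb : ∀ r, 0 ≤ r → |M r| ≤ C * Real.exp (-(τ * r ^ 2)))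
    {f : EuclideanSpace ℝ (Fin (m + 1)) → ℂ} (hf : Integrable f)
    (z : EuclideanSpace ℝ (Fin (m + 1))) :
    Integrable (fun ζ => e (⟪z, ζ⟫ : ℝ) * (((M ‖ζ‖ : ℝ) : ℂ) * 𝓕 f ζ)) := by
  refine Integrable.mono' (((gauss_int' m hτ).const_mul C).mul_const (∫ z, ‖f z‖)) ?_ ?_
  · refine Measurable.aestronglyMeasurable ?_
    exact Measurable.mul (measurable_e.comp (by fun_prop)) (Measurable.mul
      (Complex.measurable_ofReal.comp (hM.comp (by fun_prop))) (cont_four hf).measurable)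
  · refine Eventually.of_forall fun ζ => ?_
    rw [norm_mul, norm_mul, norm_e, one_mul, Complex.norm_real, Real.norm_eq_abs]
    have h5 := hb ‖ζ‖ (norm_nonneg _)
    exact mul_le_mul h5 (norm_four_le f ζ) (norm_nonneg _) ((abs_nonneg _).trans h5)

lemma wv_eq (m : ℕ) {s τ t : ℝ} (hs : 0 < s) (hτ : 0 < τ) (ht : |t| ≤ 2)
    {f0 f1 : EuclideanSpace ℝ (Fin (m + 1)) → ℂ} (h0 : Integrable f0) (h1 : Integrable f1)
    (z : EuclideanSpace ℝ (Fin (m + 1))) :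
    wv (m + 1) s τ f0 f1 t z = RM m (mc s τ t) f0 z + RM m (ms s τ t) f1 z := by
  unfold RM wv
  rw [← integral_add
    (int_piece m (mc s τ t) (measurable_mc s τ t) hτ (fun r _ => mc_le s τ t r hs) h0 z)
    (int_piece m (ms s τ t) (measurable_ms s τ t) hτ (fun r hr => ms_le s τ t r hs ht hr) h1 z)]
  refine integral_congr_ae (Eventually.of_forall fun ζ => ?_)
  simp only
  unfold mc ms
  push_cast
  ring

/-- the estimate for one datum of the class `P` -/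
def OneD (m : ℕ) (s p : ℝ) (P : (EuclideanSpace ℝ (Fin (m + 1)) → ℂ) → Prop) : Prop :=
  ∃ C : ℝ, 0 < C ∧
    ∀ f : EuclideanSpace ℝ (Fin (m + 1)) → ℂ, Integrable f → P f →
    ∀ τ : ℝ, 0 < τ → τ ≤ 1 →
    (∫⁻ t in Icc (1 : ℝ) 2, ∫⁻ z, ‖RM m (mc s τ t) f z‖ₑ ^ p ≤
      ENNReal.ofReal C * ∫⁻ z, ‖f z‖ₑ ^ p) ∧
    (∫⁻ t in Icc (1 : ℝ) 2, ∫⁻ z, ‖RM m (ms s τ t) f z‖ₑ ^ p ≤
      ENNReal.ofReal C * ∫⁻ z, ‖f z‖ₑ ^ p)

/-- the estimate for positive `τ` -/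
theorem wv_pos (m : ℕ) (s p : ℝ) (P : (EuclideanSpace ℝ (Fin (m + 1)) → ℂ) → Prop)
    (hone : OneD m s p P) (hs : 0 < s)
    (hp2 : 2 ≤ p) : ∃ C : ℝ, 0 < C ∧
    ∀ f0 f1 : EuclideanSpace ℝ (Fin (m + 1)) → ℂ, Integrable f0 → Integrable f1 →
    P f0 → P f1 → ∀ τ : ℝ, 0 < τ → τ ≤ 1 →
    ∫⁻ t in Icc (1 : ℝ) 2, ∫⁻ z, ‖wv (m + 1) s τ f0 f1 t z‖ₑ ^ p ≤
      ENNReal.ofReal C * ((∫⁻ z, ‖f0 z‖ₑ ^ p) + ∫⁻ z, ‖f1 z‖ₑ ^ p) := by
  obtain ⟨C, hC, h⟩ := hone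
  refine ⟨2 ^ (p - 1) * C, by positivity, ?_⟩
  intro f0 f1 h0 h1 hc0 hc1 τ hτ hτ1
  have hmz : ∀ (M : ℝ → ℝ → ℝ), Measurable (Function.uncurry M) →
      ∀ f : EuclideanSpace ℝ (Fin (m + 1)) → ℂ, Integrable f →
      Measurable (fun q : ℝ × EuclideanSpace ℝ (Fin (m + 1)) => RM m (M q.1) f q.2) := by
    intro M hM f hf
    have h1 : StronglyMeasurable (fun q : (ℝ × EuclideanSpace ℝ (Fin (m + 1))) ×
        EuclideanSpace ℝ (Fin (m + 1)) =>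
        e (⟪q.1.2, q.2⟫ : ℝ) * (((M q.1.1 ‖q.2‖ : ℝ) : ℂ) * 𝓕 f q.2)) := by
      apply Measurable.stronglyMeasurable
      refine Measurable.mul (measurable_e.comp (by fun_prop)) (Measurable.mul
        (Complex.measurable_ofReal.comp ?_) ((cont_four hf).measurable.comp measurable_snd))
      exact hM.comp (f := fun q : (ℝ × EuclideanSpace ℝ (Fin (m + 1))) ×
        EuclideanSpace ℝ (Fin (m + 1)) => (q.1.1, ‖q.2‖)) (by fun_prop)
    exact (h1.integral_prod_right (ν := volume)).measurable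
  have hmc : Measurable (Function.uncurry (mc s τ)) := by
    unfold mc Function.uncurry
    refine Measurable.mul (by fun_prop) (Measurable.mul (by fun_prop) ?_)
    exact Measurable.pow_const (by fun_prop) _
  have hms : Measurable (Function.uncurry (ms s τ)) := by
    unfold ms Function.uncurry
    refine Measurable.mul (by fun_prop) (Measurable.mul (by fun_prop) ?_)
    exact Measurable.pow_const (by fun_prop) _
  have m0 := hmz (mc s τ) hmc f0 h0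
  have m1 := hmz (ms s τ) hms f1 h1
  have h2p : (2 : ℝ≥0∞) ^ (p - 1) = ENNReal.ofReal (2 ^ (p - 1)) := by
    rw [← ENNReal.ofReal_rpow_of_pos (by norm_num)]
    norm_num
  calc ∫⁻ t in Icc (1 : ℝ) 2, ∫⁻ z, ‖wv (m + 1) s τ f0 f1 t z‖ₑ ^ p
      ≤ ∫⁻ t in Icc (1 : ℝ) 2, ∫⁻ z, 2 ^ (p - 1) * (‖RM m (mc s τ t) f0 z‖ₑ ^ p +
          ‖RM m (ms s τ t) f1 z‖ₑ ^ p) := by
        refine setLIntegral_mono' measurableSet_Icc fun t ht => ?_
        refine lintegral_mono fun z => ?_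
        have ht2 : |t| ≤ 2 := by rw [abs_of_nonneg (by linarith [ht.1])]; exact ht.2
        rw [wv_eq m hs hτ ht2 h0 h1]
        exact (ENNReal.rpow_le_rpow (enorm_add_le _ _) (by linarith)).trans
          (ENNReal.rpow_add_le_mul_rpow_add_rpow _ _ (by linarith))
    _ = 2 ^ (p - 1) * ((∫⁻ t in Icc (1 : ℝ) 2, ∫⁻ z, ‖RM m (mc s τ t) f0 z‖ₑ ^ p) +
          ∫⁻ t in Icc (1 : ℝ) 2, ∫⁻ z, ‖RM m (ms s τ t) f1 z‖ₑ ^ p) := by
        rw [← lintegral_add_left, ← lintegral_const_mul']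
        · refine lintegral_congr fun t => ?_
          rw [← lintegral_add_left, ← lintegral_const_mul']
          · rw [h2p]; exact ENNReal.ofReal_ne_top
          · exact ((m0.comp measurable_prodMk_left).enorm.pow_const p)
        · rw [h2p]; exact ENNReal.ofReal_ne_top
        · exact Measurable.lintegral_prod_right' (m0.enorm.pow_const p)
    _ ≤ 2 ^ (p - 1) * ((ENNReal.ofReal C * ∫⁻ z, ‖f0 z‖ₑ ^ p) +
          ENNReal.ofReal C * ∫⁻ z, ‖f1 z‖ₑ ^ p) := by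
        refine mul_le_mul_right ?_ _
        exact add_le_add (h f0 h0 hc0 τ hτ hτ1).1 (h f1 h1 hc1 τ hτ hτ1).2
    _ = _ := by
        rw [h2p, ENNReal.ofReal_mul (by positivity), ← mul_add, mul_assoc]

/-- the integrand is dominated -/
lemma wv_dom (m : ℕ) {s τ t : ℝ} (hτ : 0 ≤ τ) (ht : |t| ≤ 2)
    (f0 f1 : EuclideanSpace ℝ (Fin (m + 1)) → ℂ) (z ζ : EuclideanSpace ℝ (Fin (m + 1))) :
    ‖e (⟪z, ζ⟫ : ℝ) * (((Real.exp (-(τ * ‖ζ‖ ^ 2)) : ℝ) : ℂ) *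
    (((Real.cos (2 * Real.pi * (t * ‖ζ‖)) *
        (1 + 4 * Real.pi ^ 2 * ‖ζ‖ ^ 2) ^ (-(s / 2)) : ℝ) : ℂ) * 𝓕 f0 ζ +
     ((Real.sin (2 * Real.pi * (t * ‖ζ‖)) / (2 * Real.pi * ‖ζ‖) *
        (1 + 4 * Real.pi ^ 2 * ‖ζ‖ ^ 2) ^ ((1 - s) / 2) : ℝ) : ℂ) * 𝓕 f1 ζ))‖ ≤
    ‖(((1 + 4 * Real.pi ^ 2 * ‖ζ‖ ^ 2) ^ (-(s / 2)) : ℝ) : ℂ) * 𝓕 f0 ζ‖ +
      3 * ‖(((1 + 4 * Real.pi ^ 2 * ‖ζ‖ ^ 2) ^ (-(s / 2)) : ℝ) : ℂ) * 𝓕 f1 ζ‖ := by
  have hb := be_ge ‖ζ‖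
  have hw : 0 ≤ (1 + 4 * Real.pi ^ 2 * ‖ζ‖ ^ 2) ^ (-(s / 2)) := by positivity
  rw [norm_mul, norm_e, one_mul, norm_mul, Complex.norm_real, Real.norm_eq_abs,
    abs_of_pos (Real.exp_pos _)]
  have h1 : Real.exp (-(τ * ‖ζ‖ ^ 2)) ≤ 1 := by
    rw [Real.exp_le_one_iff]
    have : 0 ≤ τ * ‖ζ‖ ^ 2 := by positivity
    linarith
  refine (mul_le_of_le_one_left (norm_nonneg _) h1).trans ((norm_add_le _ _).trans
    (add_le_add ?_ ?_))
  · rw [norm_mul, norm_mul, Complex.norm_real, Complex.norm_real, Real.norm_eq_abs,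
      Real.norm_eq_abs, abs_mul]
    refine mul_le_mul_of_nonneg_right ?_ (norm_nonneg _)
    exact mul_le_of_le_one_left (abs_nonneg _) (Real.abs_cos_le_one _)
  · rw [norm_mul, norm_mul, Complex.norm_real, Complex.norm_real, Real.norm_eq_abs,
      Real.norm_eq_abs]
    refine le_trans (mul_le_mul_of_nonneg_right
      (b := |Real.sin (2 * Real.pi * (t * ‖ζ‖)) / (2 * Real.pi * ‖ζ‖) *
        (1 + 4 * Real.pi ^ 2 * ‖ζ‖ ^ 2) ^ ((1 - s) / 2)|)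
      (c := 3 * |(1 + 4 * Real.pi ^ 2 * ‖ζ‖ ^ 2) ^ (-(s / 2))|) ?_ (norm_nonneg (𝓕 f1 ζ)))
      (le_of_eq (by ring))
    have h2 := ms_core 0 t ‖ζ‖ le_rfl ht (norm_nonneg _)
    have h3 : (1 + 4 * Real.pi ^ 2 * ‖ζ‖ ^ 2) ^ ((1 - s) / 2) =
        (1 + 4 * Real.pi ^ 2 * ‖ζ‖ ^ 2) ^ ((1 - 0 : ℝ) / 2) *
          (1 + 4 * Real.pi ^ 2 * ‖ζ‖ ^ 2) ^ (-(s / 2)) := by
      rw [← Real.rpow_add (by linarith)]
      congr 1; ring
    rw [h3, ← mul_assoc, abs_mul]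
    exact mul_le_mul_of_nonneg_right h2 (abs_nonneg _)

/-- the estimate for all `τ` -/
theorem wv_all (m : ℕ) (s p : ℝ) (P : (EuclideanSpace ℝ (Fin (m + 1)) → ℂ) → Prop)
    (hone : OneD m s p P) (hs : 0 < s)
    (hp2 : 2 ≤ p) : ∃ C : ℝ, 0 < C ∧
    ∀ f0 f1 : EuclideanSpace ℝ (Fin (m + 1)) → ℂ, Integrable f0 → Integrable f1 →
    P f0 → P f1 → ∀ τ : ℝ, 0 ≤ τ → τ ≤ 1 →
    (0 < τ ∨
      (Integrable (fun ζ => (((1 + 4 * Real.pi ^ 2 * ‖ζ‖ ^ 2) ^ (-(s / 2)) : ℝ) : ℂ) * 𝓕 f0 ζ) ∧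
       Integrable (fun ζ => (((1 + 4 * Real.pi ^ 2 * ‖ζ‖ ^ 2) ^ (-(s / 2)) : ℝ) : ℂ) *
        𝓕 f1 ζ))) →
    ∫⁻ t in Icc (1 : ℝ) 2, ∫⁻ z, ‖wv (m + 1) s τ f0 f1 t z‖ₑ ^ p ≤
      ENNReal.ofReal C * ((∫⁻ z, ‖f0 z‖ₑ ^ p) + ∫⁻ z, ‖f1 z‖ₑ ^ p) := by
  obtain ⟨C, hC, h⟩ := wv_pos m s p P hone hs hp2
  refine ⟨C, hC, ?_⟩
  intro f0 f1 h0 h1 hc0 hc1 τ hτ hτ1 hcase
  rcases hτ.eq_or_lt with hτ0 | hτ0
  swap
  · exact h f0 f1 h0 h1 hc0 hc1 τ hτ0 hτ1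
  subst hτ0
  rcases hcase with hcase | ⟨hi0, hi1⟩
  · exact absurd hcase (lt_irrefl _)
  set R := ENNReal.ofReal C * ((∫⁻ z, ‖f0 z‖ₑ ^ p) + ∫⁻ z, ‖f1 z‖ₑ ^ p) with hR
  set u : ℕ → ℝ := fun n => 1 / ((n : ℝ) + 1) with hu
  have hu0 : ∀ n, 0 < u n := fun n => by simp only [hu]; positivity
  have hu1 : ∀ n, u n ≤ 1 := by
    intro n
    simp only [hu]
    rw [div_le_one (by positivity)]
    have : (0 : ℝ) ≤ n := Nat.cast_nonneg n
    linarith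
  have hul : Tendsto u atTop (𝓝 0) := tendsto_one_div_add_atTop_nhds_zero_nat
  -- measurability
  have hmeas : ∀ n, Measurable (fun q : ℝ × EuclideanSpace ℝ (Fin (m + 1)) =>
      wv (m + 1) s (u n) f0 f1 q.1 q.2) := by
    intro n
    have h2 : StronglyMeasurable (fun q : (ℝ × EuclideanSpace ℝ (Fin (m + 1))) ×
        EuclideanSpace ℝ (Fin (m + 1)) =>
        e (⟪q.1.2, q.2⟫ : ℝ) * (((Real.exp (-(u n * ‖q.2‖ ^ 2)) : ℝ) : ℂ) *
        (((Real.cos (2 * Real.pi * (q.1.1 * ‖q.2‖)) *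
        (1 + 4 * Real.pi ^ 2 * ‖q.2‖ ^ 2) ^ (-(s / 2)) : ℝ) : ℂ) * 𝓕 f0 q.2 +
     ((Real.sin (2 * Real.pi * (q.1.1 * ‖q.2‖)) / (2 * Real.pi * ‖q.2‖) *
        (1 + 4 * Real.pi ^ 2 * ‖q.2‖ ^ 2) ^ ((1 - s) / 2) : ℝ) : ℂ) * 𝓕 f1 q.2))) := by
      apply Measurable.stronglyMeasurable
      have e0 := (cont_four h0).measurable
      have e1 := (cont_four h1).measurable
      refine Measurable.mul (measurable_e.comp (by fun_prop)) (Measurable.mul (by fun_prop)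
        (Measurable.add (Measurable.mul (Complex.measurable_ofReal.comp (Measurable.mul
          (by fun_prop) (Measurable.pow_const (by fun_prop) _))) (e0.comp measurable_snd))
         (Measurable.mul (Complex.measurable_ofReal.comp (Measurable.mul
          (by fun_prop) (Measurable.pow_const (by fun_prop) _))) (e1.comp measurable_snd))))
    exact (h2.integral_prod_right (ν := volume)).measurable
  -- convergence
  have hconv : ∀ t : ℝ, |t| ≤ 2 → ∀ z, Tendsto (fun n => wv (m + 1) s (u n) f0 f1 t z) atTop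
      (𝓝 (wv (m + 1) s 0 f0 f1 t z)) := by
    intro t ht z
    unfold wv
    refine tendsto_integral_of_dominated_convergence (fun ζ =>
      ‖(((1 + 4 * Real.pi ^ 2 * ‖ζ‖ ^ 2) ^ (-(s / 2)) : ℝ) : ℂ) * 𝓕 f0 ζ‖ +
      3 * ‖(((1 + 4 * Real.pi ^ 2 * ‖ζ‖ ^ 2) ^ (-(s / 2)) : ℝ) : ℂ) * 𝓕 f1 ζ‖) ?_ ?_ ?_ ?_
    · intro n
      have e0 := (cont_four h0).measurable
      have e1 := (cont_four h1).measurable
      refine Measurable.aestronglyMeasurable ?_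
      refine Measurable.mul (measurable_e.comp (by fun_prop)) (Measurable.mul (by fun_prop)
        (Measurable.add (Measurable.mul (Complex.measurable_ofReal.comp (Measurable.mul
          (by fun_prop) (Measurable.pow_const (by fun_prop) _))) e0)
         (Measurable.mul (Complex.measurable_ofReal.comp (Measurable.mul
          (by fun_prop) (Measurable.pow_const (by fun_prop) _))) e1)))
    · exact hi0.norm.add (hi1.norm.const_mul 3)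
    · intro n
      exact Eventually.of_forall fun ζ => wv_dom m (hu0 n).le ht f0 f1 z ζ
    · refine Eventually.of_forall fun ζ => ?_
      refine Tendsto.const_mul _ (Tendsto.mul_const _ ?_)
      refine (Complex.continuous_ofReal.tendsto _).comp ((Real.continuous_exp.tendsto _).comp ?_)
      exact (hul.mul_const _).neg
  calc ∫⁻ t in Icc (1 : ℝ) 2, ∫⁻ z, ‖wv (m + 1) s 0 f0 f1 t z‖ₑ ^ p
      ≤ ∫⁻ t in Icc (1 : ℝ) 2, liminf (fun n => ∫⁻ z, ‖wv (m + 1) s (u n) f0 f1 t z‖ₑ ^ p)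
          atTop := by
        refine setLIntegral_mono' measurableSet_Icc fun t ht => ?_
        have ht2 : |t| ≤ 2 := by rw [abs_of_nonneg (by linarith [ht.1])]; exact ht.2
        calc ∫⁻ z, ‖wv (m + 1) s 0 f0 f1 t z‖ₑ ^ p
            = ∫⁻ z, liminf (fun n => ‖wv (m + 1) s (u n) f0 f1 t z‖ₑ ^ p) atTop := by
              refine lintegral_congr fun z => ?_
              symm
              apply Tendsto.liminf_eq
              exact (ENNReal.continuous_rpow_const.tendsto _).comp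
                ((continuous_enorm.tendsto _).comp (hconv t ht2 z))
          _ ≤ _ := lintegral_liminf_le fun n =>
              ((hmeas n).comp measurable_prodMk_left).enorm.pow_const p
    _ ≤ liminf (fun n => ∫⁻ t in Icc (1 : ℝ) 2, ∫⁻ z, ‖wv (m + 1) s (u n) f0 f1 t z‖ₑ ^ p)
          atTop := lintegral_liminf_le fun n =>
              Measurable.lintegral_prod_right' ((hmeas n).enorm.pow_const p)
    _ ≤ R := by
        refine (liminf_le_liminf (v := fun _ => R) (Eventually.of_forall fun n => ?_)).trans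
          (le_of_eq (liminf_const R))
        exact h f0 f1 h0 h1 hc0 hc1 (u n) (hu0 n) (hu1 n)

end Pool.Agent.TH280.LS
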