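import Pool.Agent.TH280.LS.K3
import Pool.Agent.TH280.LS.StmC
set_option autoImplicit false

/-! # General assembly, and data with radially decreasing slices -/

open MeasureTheory Set Filter
open scoped ENNReal FourierTransform RealInnerProductSpace Topology

namespace Pool.Agent.TH280.LS.K5

open Pool.Agent.TH280.LS

/-- the bounds with frequency weight `W` -/
def TW (m : ℕ) (W : (Fin m → ℝ) → ℝ) (s p : ℝ) : Prop := ∃ C : ℝ, 0 < C ∧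
  ∀ (τ : ℝ) (G : (Fin m → ℝ) → ℝ → ℂ), 0 < τ → τ ≤ 1 → Adm m G →
  (∫⁻ t in Icc (1 : ℝ) 2, ∫⁻ x : ℝ, ∫⁻ y : Fin m → ℝ, ‖Tm m (mc s τ t) G y x‖ₑ ^ p ≤
    ENNReal.ofReal C * ∫⁻ x : ℝ, ∫⁻ η : Fin m → ℝ, ENNReal.ofReal (W η) * ‖G η x‖ₑ ^ p) ∧
  (∫⁻ t in Icc (1 : ℝ) 2, ∫⁻ x : ℝ, ∫⁻ y : Fin m → ℝ, ‖Tm m (ms s τ t) G y x‖ₑ ^ p ≤
    ENNReal.ofReal C * ∫⁻ x : ℝ, ∫⁻ η : Fin m → ℝ, ENNReal.ofReal (W η) * ‖G η x‖ₑ ^ p)

/-- the slice inequality with constant `C2`, after an isometry -/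
def Sl (m : ℕ) (W : (Fin m → ℝ) → ℝ) (p C2 : ℝ) (f : EuclideanSpace ℝ (Fin (m + 1)) → ℂ) : Prop :=
  ∃ (L : EuclideanSpace ℝ (Fin (m + 1)) ≃ₗᵢ[ℝ] EuclideanSpace ℝ (Fin (m + 1)))
    (f' : EuclideanSpace ℝ (Fin (m + 1)) → ℂ), (∀ z, f z = f' (L z)) ∧
    ∀ x : ℝ, Integrable (fun y : Fin m → ℝ => f' ((Zc m).symm (x, y))) →
      ∫⁻ η : Fin m → ℝ, ENNReal.ofReal (W η) *
        ‖ftm m (fun y => f' ((Zc m).symm (x, y))) η‖ₑ ^ p ≤
      ENNReal.ofReal C2 * ∫⁻ y : Fin m → ℝ, ‖f' ((Zc m).symm (x, y))‖ₑ ^ p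

/-- the estimate for one datum -/
theorem one_datum_gen (m : ℕ) (W : (Fin m → ℝ) → ℝ) (s p C2 : ℝ) (hs : 0 < s) (hC2 : 0 < C2)
    (hTP : TW m W s p) : ∃ C : ℝ, 0 < C ∧
    ∀ f : EuclideanSpace ℝ (Fin (m + 1)) → ℂ, Integrable f → Sl m W p C2 f →
    ∀ τ : ℝ, 0 < τ → τ ≤ 1 →
    (∫⁻ t in Icc (1 : ℝ) 2, ∫⁻ z, ‖RM m (mc s τ t) f z‖ₑ ^ p ≤
      ENNReal.ofReal C * ∫⁻ z, ‖f z‖ₑ ^ p) ∧
    (∫⁻ t in Icc (1 : ℝ) 2, ∫⁻ z, ‖RM m (ms s τ t) f z‖ₑ ^ p ≤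
      ENNReal.ofReal C * ∫⁻ z, ‖f z‖ₑ ^ p) := by
  obtain ⟨C1, hC1, h1⟩ := hTP
  refine ⟨C1 * C2, mul_pos hC1 hC2, ?_⟩
  rintro f hf ⟨L, f', hff0, hsl⟩ τ hτ hτ1
  have hff : f = fun z => f' (L z) := funext hff0
  have hf'i : Integrable f' := by
    have h3 : f' = fun z => f (L.symm z) := by
      funext z
      rw [hff]
      simp only [LinearIsometryEquiv.apply_symm_apply]
    rw [h3]
    exact L.symm.measurePreserving.integrable_comp_of_integrable hf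
  -- coordinates
  set g : ℝ × (Fin m → ℝ) → ℂ := fun q => f' ((Zc m).symm q) with hg
  have hgi : Integrable g := ((Zc_mp m).symm _).integrable_comp_of_integrable hf'i
  have hgf : (fun z => g (Zc m z)) = f' := by
    funext z
    simp only [hg, MeasurableEquiv.symm_apply_apply]
  -- measurable modification
  obtain ⟨g0, hg0m, hg0e⟩ : ∃ g0 : ℝ × (Fin m → ℝ) → ℂ, Measurable g0 ∧ g =ᵐ[volume] g0 :=
    ⟨hgi.1.mk g, hgi.1.stronglyMeasurable_mk.measurable, hgi.1.ae_eq_mk⟩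
  have hg0i : Integrable g0 := hgi.congr hg0e
  have hcong : (fun z => g (Zc m z)) =ᵐ[volume] fun z => g0 (Zc m z) :=
    (Zc_mp m).quasiMeasurePreserving.ae_eq_comp hg0e
  have hRM : ∀ M : ℝ → ℝ, ∀ z, RM m M f z = RM m M (fun z => g0 (Zc m z)) (L z) := by
    intro M z
    rw [← RM_congr m M hcong, hgf, hff, RM_rot]
  have hslice : ∫⁻ x : ℝ, ∫⁻ η : Fin m → ℝ,
      ENNReal.ofReal (W η) * ‖GG m g0 η x‖ₑ ^ p ≤
      ENNReal.ofReal C2 * ∫⁻ x : ℝ, ∫⁻ y : Fin m → ℝ, ‖g (x, y)‖ₑ ^ p := by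
    have h1 : ∀ᵐ x : ℝ, ∀ᵐ y : Fin m → ℝ, g (x, y) = g0 (x, y) := Measure.ae_ae_of_ae_prod hg0e
    have h2 : ∀ᵐ x : ℝ, Integrable (fun y : Fin m → ℝ => g (x, y)) := hgi.prod_right_ae
    rw [← lintegral_const_mul' _ _ ENNReal.ofReal_ne_top]
    refine lintegral_mono_ae ?_
    filter_upwards [h1, h2] with x hx1 hx2
    have h3 : ∀ η, GG m g0 η x = ftm m (fun y => g (x, y)) η := by
      intro η
      unfold GG ftm
      refine integral_congr_ae ?_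
      filter_upwards [hx1] with y hy
      rw [hy]
    simp only [h3]
    exact hsl x hx2
  have hR : ENNReal.ofReal C1 * ∫⁻ x : ℝ, ∫⁻ η : Fin m → ℝ,
      ENNReal.ofReal (W η) * ‖GG m g0 η x‖ₑ ^ p ≤
      ENNReal.ofReal (C1 * C2) * ∫⁻ z, ‖f z‖ₑ ^ p := by
    rw [ENNReal.ofReal_mul hC1.le, mul_assoc]
    refine mul_le_mul_right ?_ _
    refine hslice.trans (mul_le_mul_right ?_ _)
    apply le_of_eq
    have h7 : AEMeasurable (fun q : ℝ × (Fin m → ℝ) => ‖g q‖ₑ ^ p) :=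
      hgi.1.aemeasurable.enorm.pow_const p
    have h8 : ∫⁻ z, ‖f z‖ₑ ^ p = ∫⁻ z, ‖f' z‖ₑ ^ p := by
      rw [hff]
      exact lint_rot m (fun z => ‖f' z‖ₑ ^ p) L
    rw [h8, ← hgf]
    rw [(Zc_mp m).lintegral_comp_emb (Zc m).measurableEmbedding (fun q => ‖g q‖ₑ ^ p),
      Measure.volume_eq_prod, lintegral_prod _ h7]
  have hLi : ∀ (M : ℝ → ℝ), ∫⁻ z, ‖RM m M f z‖ₑ ^ p =
      ∫⁻ z, ‖RM m M (fun z => g0 (Zc m z)) z‖ₑ ^ p := by
    intro M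
    simp only [hRM M]
    exact lint_rot m (fun z => ‖RM m M (fun z => g0 (Zc m z)) z‖ₑ ^ p) L
  have hTPg := h1 τ (GG m g0) hτ hτ1 (GG_adm m hg0i hg0m)
  constructor
  · refine (le_of_eq ?_).trans (hTPg.1.trans hR)
    refine setLIntegral_congr_fun measurableSet_Icc fun t ht => ?_
    rw [hLi, RM_lint m (mc s τ t) (measurable_mc s τ t) hτ (fun r _ => mc_le s τ t r hs) hg0i]
  · refine (le_of_eq ?_).trans (hTPg.2.trans hR)
    refine setLIntegral_congr_fun measurableSet_Icc fun t ht => ?_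
    have ht2 : |t| ≤ 2 := by rw [abs_of_nonneg (by linarith [ht.1])]; exact ht.2
    rw [hLi, RM_lint m (ms s τ t) (measurable_ms s τ t) hτ
      (fun r hr => ms_le s τ t r hs ht2 hr) hg0i]

/-- data with radially decreasing slices of radius at most `R0` -/
def InClassB (m : ℕ) (R0 : ℝ≥0∞) (f : EuclideanSpace ℝ (Fin (m + 1)) → ℂ) : Prop :=
  ∃ (u : EuclideanSpace ℝ (Fin (m + 1))) (γ : ℝ → EuclideanSpace ℝ (Fin (m + 1))) (b : ℝ → ℂ)
    (F : ℝ → ℝ → ℝ), ‖u‖ = 1 ∧ (∀ x, AntitoneOn (F x) (Ici 0)) ∧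
    (∀ x r, R0 < ENNReal.ofReal r → F x r = 0) ∧
    ∀ z, f z = b (⟪u, z⟫ : ℝ) * ((F (⟪u, z⟫ : ℝ) ‖z - γ (⟪u, z⟫ : ℝ)‖ : ℝ) : ℂ)

lemma exists_iso (m : ℕ) (u : EuclideanSpace ℝ (Fin (m + 1))) (hu : ‖u‖ = 1) :
    ∃ L : EuclideanSpace ℝ (Fin (m + 1)) ≃ₗᵢ[ℝ] EuclideanSpace ℝ (Fin (m + 1)),
      ∀ z, (L z) (Fin.last m) = (⟪u, z⟫ : ℝ) := by
  have hcard : Module.finrank ℝ (EuclideanSpace ℝ (Fin (m + 1))) = Fintype.card (Fin (m + 1)) := by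
    simp
  have hor : Orthonormal ℝ (({Fin.last m} : Set (Fin (m + 1))).domRestrict
      (fun _ : Fin (m + 1) => u)) := by
    constructor
    · intro i; exact hu
    · intro i j hij
      exact absurd (Subtype.ext (i.2.trans j.2.symm)) hij
  obtain ⟨v, hv⟩ := hor.exists_orthonormalBasis_extension_of_card_eq hcard
  refine ⟨v.repr, fun z => ?_⟩
  rw [v.repr_apply_apply, hv (Fin.last m) rfl]

/-- slices of data in the class -/
lemma classB_slice (m : ℕ) (R0 : ℝ≥0∞) (W : (Fin m → ℝ) → ℝ) (p C2 : ℝ)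
    (h : ∀ (b : ℂ) (c : Fin m → ℝ) (F : ℝ → ℝ), AntitoneOn F (Ici 0) →
      (∀ r, R0 < ENNReal.ofReal r → F r = 0) →
      Integrable (fun y : Fin m → ℝ => b * ((F (nr (y - c)) : ℝ) : ℂ)) →
      ∫⁻ η : Fin m → ℝ, ENNReal.ofReal (W η) *
          ‖ftm m (fun y => b * ((F (nr (y - c)) : ℝ) : ℂ)) η‖ₑ ^ p ≤
        ENNReal.ofReal C2 * ∫⁻ y : Fin m → ℝ, ‖b * ((F (nr (y - c)) : ℝ) : ℂ)‖ₑ ^ p) :
    ∀ f : EuclideanSpace ℝ (Fin (m + 1)) → ℂ, InClassB m R0 f → Sl m W p C2 f := by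
  rintro f ⟨u, γ, b, F, hu, hF, hF0, hf⟩
  obtain ⟨L, hL⟩ := exists_iso m u hu
  refine ⟨L, fun w => b (w (Fin.last m)) *
    ((F (w (Fin.last m)) ‖w - L (γ (w (Fin.last m)))‖ : ℝ) : ℂ), ?_, ?_⟩
  · intro z
    rw [hf z]
    simp only [hL]
    rw [← map_sub, L.norm_map]
  · intro x hx
    set w0 : EuclideanSpace ℝ (Fin (m + 1)) := L (γ x) with hw0
    set c : Fin m → ℝ := fun i => w0 i.castSucc with hc
    set k : ℝ := x - w0 (Fin.last m) with hk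
    set Ft : ℝ → ℝ := fun r => F x (Real.sqrt (k ^ 2 + r ^ 2)) with hFt
    have hanti : AntitoneOn Ft (Ici 0) := by
      intro r hr r' hr' hrr
      refine hF x (Real.sqrt_nonneg _) (Real.sqrt_nonneg _) (Real.sqrt_le_sqrt ?_)
      have : r ^ 2 ≤ r' ^ 2 := pow_le_pow_left₀ hr hrr 2
      linarith
    have hzero : ∀ r, R0 < ENNReal.ofReal r → Ft r = 0 := by
      intro r hr
      refine hF0 x _ (hr.trans_le (ENNReal.ofReal_le_ofReal ?_))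
      refine (le_abs_self r).trans ?_
      rw [← Real.sqrt_sq_eq_abs]
      exact Real.sqrt_le_sqrt (by have := sq_nonneg k; linarith)
    have heq : ∀ y : Fin m → ℝ, b (((Zc m).symm (x, y)) (Fin.last m)) *
        ((F (((Zc m).symm (x, y)) (Fin.last m))
          ‖(Zc m).symm (x, y) - L (γ (((Zc m).symm (x, y)) (Fin.last m)))‖ : ℝ) : ℂ) =
        b x * ((Ft (nr (y - c)) : ℝ) : ℂ) := by
      intro y
      have h4 : Zc m ((Zc m).symm (x, y)) = (x, y) := MeasurableEquiv.apply_symm_apply _ _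
      have h4' := h4
      rw [Zc_apply] at h4
      have h5 : ((Zc m).symm (x, y)) (Fin.last m) = x := congrArg Prod.fst h4
      have h6 : ∀ i : Fin m, ((Zc m).symm (x, y)) i.castSucc = y i :=
        fun i => congrFun (congrArg Prod.snd h4) i
      have h7 : ‖(Zc m).symm (x, y) - w0‖ = Real.sqrt (k ^ 2 + nr (y - c) ^ 2) := by
        rw [norm_Zc, Zc_apply]
        unfold nr
        rw [Real.sq_sqrt (Finset.sum_nonneg fun i _ => sq_nonneg _)]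
        congr 2
        · change (((Zc m).symm (x, y)) (Fin.last m) - w0 (Fin.last m)) ^ 2 = _
          rw [h5]
        · refine Finset.sum_congr rfl fun i _ => ?_
          change (((Zc m).symm (x, y)) i.castSucc - w0 i.castSucc) ^ 2 = (y i - c i) ^ 2
          rw [h6]
      rw [h5, ← hw0, h7]
    simp only [heq] at hx ⊢
    exact h (b x) c Ft hanti hzero hx

end Pool.Agent.TH280.LS.K5
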