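import Pool.Agent.TH280.LS.K5
set_option autoImplicit false

/-! # Data with radially decreasing slices: the estimate for one datum -/

open MeasureTheory Set Filter
open scoped ENNReal FourierTransform RealInnerProductSpace Topology

namespace Pool.Agent.TH280.LS.K5

open Pool.Agent.TH280.LS

theorem classB_one (hE4R : S_E4R) (hONEK : S_ONEK) (hT2K : S_T2K) (hT4K : S_ONEK → S_T4K)
    (hTPK : S_TPK) (hCLR : S_CLR) (hCLRK : S_CLRK) (hONE : S_ONE) (hT4W : S_ONE → S_T4W)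
    (hT2 : S_T2) (hTPW : S_T2 → S_TPW)
    (m : ℕ) (hm : 2 ≤ m) (s p : ℝ) (hs : 0 < s) (hs2 : ((m : ℝ) - 1) / 2 - (m : ℝ) / p < s)
    (hp : 2 ≤ p) (hp4 : p ≤ 4) (R0 : ℝ≥0∞)
    (hR : R0 < ⊤ ∨ p < 2 * (m : ℝ) / ((m : ℝ) - 1)) : OneD m s p (InClassB m R0) := by
  have hm0 : 0 < m := by omega
  have hmeas : Measurable (fun η : Fin m → ℝ => nr η ^ m) := by
    unfold nr
    fun_prop
  have hnn : ∀ η : Fin m → ℝ, 0 ≤ nr η ^ m := fun η => by unfold nr; positivity
  have hne : ∀ᵐ η : Fin m → ℝ, nr η ^ m ≠ 0 := by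
    have : Nonempty (Fin m) := ⟨⟨0, by omega⟩⟩
    have h0 : ∀ᵐ η : Fin m → ℝ, η ≠ 0 := by
      rw [ae_iff]
      have h1 : {a : Fin m → ℝ | ¬ a ≠ 0} = {0} := by ext; simp
      rw [h1]
      exact measure_singleton 0
    filter_upwards [h0] with η hη hcon
    have h1 : nr η = 0 := by
      by_contra hc
      exact (pow_ne_zero m hc) hcon
    unfold nr at h1
    rw [Real.sqrt_eq_zero (Finset.sum_nonneg fun i _ => sq_nonneg _),
      Finset.sum_eq_zero_iff_of_nonneg (fun i _ => sq_nonneg _)] at h1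
    exact hη (funext fun i => by simpa using h1 i (Finset.mem_univ i))
  by_cases hcase : p < 2 * (m : ℝ) / ((m : ℝ) - 1)
  · obtain ⟨C2, hC2, hcl⟩ := hCLR m p hm hp hcase
    have hTPw : TPw m (fun η => nr η ^ m) p :=
      hTPW hT2 m _ p hm0 hmeas hnn hne hp hp4 (hT4W hONE m _ hm0 hmeas hnn (hE4R m hm0))
    have hTW : TW m (fun η => (nr η ^ m) ^ (p - 2)) s p := hTPw s hs
    obtain ⟨C, hC, h⟩ := one_datum_gen m _ s p C2 hs hC2 hTW
    refine ⟨C, hC, fun f hf hc => h f hf ?_⟩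
    exact classB_slice m R0 _ p C2 (fun b c F hF _ hi => hcl b c F hF hi) f hc
  · have hR' : R0 < ⊤ := hR.resolve_right hcase
    set σ0 : ℝ := max 0 (((m : ℝ) - 1) / 2 - (m : ℝ) / p) with hσ0
    have hσs : σ0 < s := max_lt hs hs2
    have hσ1 : 0 ≤ σ0 := le_max_left _ _
    have hσ2 : ((m : ℝ) - 1) / 2 - (m : ℝ) / p ≤ σ0 := le_max_right _ _
    obtain ⟨s1, s2, hs1, hs20, hs2b, hsum⟩ : ∃ s1 s2 : ℝ, 0 < s1 ∧ 0 < s2 ∧
        ((m : ℝ) - 1) / 2 - (m : ℝ) / p < s2 ∧ s1 + s2 = s :=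
      ⟨(s - σ0) / 2, (s + σ0) / 2, by linarith, by linarith, by linarith, by ring⟩
    obtain ⟨C2, hC2, hcl⟩ := hCLRK m p s2 R0.toReal hm hp hs20 hs2b
    have hkm : Measurable (kp m s2) := by
      unfold kp nr
      exact Measurable.pow_const (by fun_prop) _
    have hk0 : ∀ η, 0 < kp m s2 η := by
      intro η
      unfold kp
      have : 0 ≤ nr η := Real.sqrt_nonneg _
      positivity
    have hk1 : ∀ η, kp m s2 η ≤ 1 := by
      intro η
      unfold kp
      have : 0 ≤ nr η := Real.sqrt_nonneg _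
      exact Real.rpow_le_one_of_one_le_of_nonpos (by linarith) (by linarith)
    have hT2k : T2k m (kp m s2) s := by
      have := hT2K m s1 s2 hm0 hs1 hs20.le
      rwa [hsum] at this
    have hT4k : T4k m (fun η => nr η ^ m) (kp m s2) s := by
      have := hT4K hONEK m (fun η => nr η ^ m) s1 s2 hm0 hmeas hnn (hE4R m hm0) hs1 hs20.le
      rwa [hsum] at this
    have hTW : TW m (fun η => (nr η ^ m) ^ (p - 2) * kp m s2 η ^ p) s p :=
      hTPK m _ _ s p hm0 hmeas hnn hne hkm hk0 hk1 hs hp hp4 hT2k hT4k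
    obtain ⟨C, hC, h⟩ := one_datum_gen m _ s p C2 hs hC2 hTW
    refine ⟨C, hC, fun f hf hc => h f hf ?_⟩
    refine classB_slice m R0 _ p C2 (fun b c F hF hF0 hi => hcl b c F hF (fun r hr => ?_) hi) f hc
    refine hF0 r ?_
    rw [ENNReal.lt_ofReal_iff_toReal_lt hR'.ne]
    exact hr

end Pool.Agent.TH280.LS.K5
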